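import Pool.Agent.Helper54.BR.Moves

namespace Pool.Agent.Helper54.BR

variable {I L K : Type} {M r w N : ℕ} {C : CSP I L K}

open Vx

section aux

variable {V X : Type} {A B : V → X} {i j : X}

/-- agreement outside the merged districts -/
def Agree (A B : V → X) (i j : X) : Prop :=
  (∀ v, (A v = i ∨ A v = j) ↔ (B v = i ∨ B v = j)) ∧ ∀ v, A v ≠ i → A v ≠ j → B v = A v

theorem Agree.eq (h : Agree A B i j) (hi : ∀ v, B v = i ↔ A v = i) : B = A := by
  funext v
  by_cases h1 : A v = i
  · rw [h1]; exact (hi v).2 h1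
  · by_cases h2 : A v = j
    · rcases (h.1 v).1 (Or.inr h2) with h3 | h3
      · exact absurd ((hi v).1 h3) h1
      · rw [h2, h3]
    · exact h.2 v h1 h2

theorem Agree.symm (h : Agree A B i j) : Agree A B j i :=
  ⟨fun v => by rw [or_comm, h.1 v, or_comm], fun v h1 h2 => h.2 v h2 h1⟩

theorem Agree.swap [DecidableEq X] (h : Agree A B i j) : Agree A (Equiv.swap i j ∘ B) i j := by
  constructor
  · intro v
    rw [h.1 v]
    simp only [Function.comp]
    constructor
    · rintro (h1 | h1)
      · rw [h1]; right; exact Equiv.swap_apply_left _ _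
      · rw [h1]; left; exact Equiv.swap_apply_right _ _
    · rintro (h1 | h1)
      · right
        rw [Equiv.swap_apply_eq_iff, Equiv.swap_apply_left] at h1
        exact h1
      · left
        rw [Equiv.swap_apply_eq_iff, Equiv.swap_apply_right] at h1
        exact h1
  · intro v h1 h2
    simp only [Function.comp]
    have h3 := h.2 v h1 h2
    rw [h3]
    exact Equiv.swap_apply_of_ne_of_ne h1 h2

end aux

/-- the side districts are not adjacent -/
theorem case_sides [Finite I] [Finite L] [Finite K] {p : Bool → I → L} {σ : Fin w → Option (Fin r)} {B : Vx I L K M r w → Lb r}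
    (hA : Bal (gr C M r w) N (lab p σ)) (hB : Bal (gr C M r w) N B)
    (hag : Agree (lab p σ) B (Sum.inl false) (Sum.inl true))
    (h0 : B (hb false none) = Sum.inl false) : B = lab p σ := by
  apply hag.eq
  apply eq_of_card
  · intro v hv
    by_contra hcon
    obtain ⟨x, hx, y, hy, hTx, hTy, hadj⟩ := exit_edge (hB (Sum.inl false)).1
      (fun v => lab p σ v = Sum.inl false) (a := hb false none) (b := v) h0 hv
      (by simp [lab]) hcon
    have hy2 : lab p σ y = Sum.inl true := by
      rcases (hag.1 y).2 (Or.inl hy) with h | h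
      · exact absurd h hTy
      · exact h
    rw [adj_iff] at hadj
    rcases x with ⟨τ, i, b⟩ | κ | ⟨τ, _ | i⟩ | _ | j | ⟨τ, i, l⟩ | l <;>
      rcases y with ⟨τ', i', b'⟩ | κ' | ⟨τ', _ | i'⟩ | _ | j' | ⟨τ', i', l'⟩ | l' <;>
      simp [lab, E] at hadj hTx hy2 <;> (try subst hadj) <;> (try (obtain ⟨hadj1, -⟩ := hadj; subst hadj1)) <;>
      (try split_ifs at hTx) <;> (try split_ifs at hy2) <;> simp_all
  · rw [(hA _).2, (hB _).2]

/-- a side district and a corner district -/
theorem case_side_corner [Finite I] [Finite L] [Finite K] {p : Bool → I → L} {σ : Fin w → Option (Fin r)} {B : Vx I L K M r w → Lb r}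
    (hN : 2 ≤ N) (hA : Bal (gr C M r w) N (lab p σ)) (hB : Bal (gr C M r w) N B) (τ : Bool)
    (j : Fin r) (hag : Agree (lab p σ) B (Sum.inl τ) (Sum.inr (some j)))
    (h0 : B (co j) = Sum.inr (some j)) : B = lab p σ := by
  have hha : B ha = Sum.inr none := hag.2 ha (by simp [lab]) (by simp [lab])
  have hco : ∀ j', B (co j') = Sum.inr (some j') := by
    intro j'
    by_cases hj : j' = j
    · rw [hj, h0]
    · exact hag.2 (co j') (by simp [lab]) (by simp [lab, hj])
  apply hag.eq
  apply eq_of_card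
  · intro v hv
    by_contra hcon
    have hv2 : lab p σ v = Sum.inr (some j) := by
      rcases (hag.1 v).2 (Or.inl hv) with h | h
      · exact absurd h hcon
      · exact h
    rcases v with ⟨τ', i, b⟩ | κ | ⟨τ', i⟩ | _ | j' | ⟨τ', i, l⟩ | l
    · simp only [lab] at hv2; split_ifs at hv2; all_goals simp at hv2
    · simp [lab] at hv2
    · simp [lab] at hv2
    · simp [lab] at hv2
    · rw [hco] at hv; simp at hv
    · simp [lab] at hv2
    · obtain ⟨u, hu, hadj⟩ := hB.nbr hN (pa l)
      rw [hv] at hu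
      rw [adj_iff] at hadj
      rcases u with ⟨τ', i', b'⟩ | κ' | ⟨τ', _ | i'⟩ | _ | j' | ⟨τ', i', l'⟩ | l' <;>
        simp [E] at hadj
      · rw [hha] at hu; simp at hu
      · rw [hco] at hu; simp at hu
  · rw [(hA _).2, (hB _).2]

/-- extraction of the new assignment of the masses -/
theorem mass_of {p : Bool → I → L} {σ : Fin w → Option (Fin r)} {B : Vx I L K M r w → Lb r}
    {x y : Option (Fin r)} (hag : Agree (lab p σ) B (Sum.inr x) (Sum.inr y)) (l : Fin w) :
    ∃ o, B (pa l) = Sum.inr o := by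
  by_cases h1 : lab (M := M) (K := K) p σ (pa l) = Sum.inr x
  · rcases (hag.1 (pa l)).1 (Or.inl h1) with h | h
    · exact ⟨_, h⟩
    · exact ⟨_, h⟩
  · by_cases h2 : lab (M := M) (K := K) p σ (pa l) = Sum.inr y
    · rcases (hag.1 (pa l)).1 (Or.inr h2) with h | h
      · exact ⟨_, h⟩
      · exact ⟨_, h⟩
    · exact ⟨_, hag.2 _ h1 h2⟩

/-- two corner districts -/
theorem case_corners {p : Bool → I → L} {σ : Fin w → Option (Fin r)} {B : Vx I L K M r w → Lb r}
    (hN : 2 ≤ N) (hB : Bal (gr C M r w) N B) (i j : Fin r) (hij : i ≠ j)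
    (hag : Agree (lab p σ) B (Sum.inr (some i)) (Sum.inr (some j)))
    (h0 : B (co i) = Sum.inr (some i)) : ∃ σ', B = lab p σ' := by
  have hha : B ha = Sum.inr none := hag.2 ha (by simp [lab]) (by simp [lab])
  have hcj : B (co j) = Sum.inr (some j) := by
    rcases (hag.1 (co j)).1 (Or.inr (by simp [lab])) with h | h
    · exfalso
      have hne := (hB (Sum.inr (some j))).1.nonempty
      obtain ⟨v, hv⟩ := hne
      have hv' : B v = Sum.inr (some j) := hv
      have hAv := (hag.1 v).2 (Or.inr hv')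
      rcases v with ⟨τ', i', b⟩ | κ | ⟨τ', i'⟩ | _ | j' | ⟨τ', i', l⟩ | l
      · simp only [lab] at hAv; split_ifs at hAv; all_goals simp at hAv
      · simp [lab] at hAv
      · simp [lab] at hAv
      · simp [lab] at hAv
      · simp only [lab, Sum.inr.injEq, Option.some.injEq] at hAv
        rcases hAv with rfl | rfl
        · rw [h0] at hv'; simp at hv'; exact hij hv'
        · rw [h] at hv'; simp at hv'; exact hij hv'
      · simp [lab] at hAv
      · obtain ⟨u, hu, hadj⟩ := hB.nbr hN (pa l)
        rw [hv'] at hu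
        rw [adj_iff] at hadj
        rcases u with ⟨τ', i', b'⟩ | κ' | ⟨τ', _ | i'⟩ | _ | j' | ⟨τ', i', l'⟩ | l' <;>
          simp [E] at hadj
        · rw [hha] at hu; simp at hu
        · by_cases h1 : j' = i
          · subst h1; rw [h0] at hu; simp at hu; exact hij hu
          · by_cases h2 : j' = j
            · subst h2; rw [h] at hu; simp at hu; exact hij hu
            · rw [hag.2 (co j') (by simp [lab, h1]) (by simp [lab, h2])] at hu
              simp [lab] at hu
              exact h2 hu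
    · exact h
  have hm := mass_of hag
  choose σ' hσ' using hm
  refine ⟨σ', ?_⟩
  funext v
  rcases v with ⟨τ', i', b⟩ | κ | ⟨τ', i'⟩ | _ | j' | ⟨τ', i', l⟩ | l
  · rw [hag.2 (lt τ' i' b) (by simp only [lab]; split_ifs <;> simp) (by simp only [lab]; split_ifs <;> simp)]
    simp [lab]
  · rw [hag.2 (cl κ) (by simp [lab]) (by simp [lab])]; simp [lab]
  · rw [hag.2 (hb τ' i') (by simp [lab]) (by simp [lab])]; simp [lab]
  · rw [hha]; simp [lab]
  · by_cases h1 : j' = i
    · subst h1; rw [h0]; simp [lab]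
    · by_cases h2 : j' = j
      · subst h2; rw [hcj]; simp [lab]
      · rw [hag.2 (co j') (by simp [lab, h1]) (by simp [lab, h2])]; simp [lab]
  · rw [hag.2 (pd τ' i' l) (by simp [lab]) (by simp [lab])]; simp [lab]
  · rw [hσ']; simp [lab]

/-- the district of `a` and a corner district -/
theorem case_hub_corner [Fintype I] [Fintype L] [Fintype K]
    {p : Bool → I → L} {σ : Fin w → Option (Fin r)} {B : Vx I L K M r w → Lb r}
    (hN : 2 ≤ N) (hN2 : 2 * Fintype.card I * Fintype.card L + Fintype.card K < N)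
    (hB : Bal (gr C M r w) N B) (j : Fin r)
    (hag : Agree (lab p σ) B (Sum.inr none) (Sum.inr (some j)))
    (h0 : B ha = Sum.inr none) : ∃ σ', B = lab p σ' := by
  have hother : ∀ j', j' ≠ j → B (co j') = Sum.inr (some j') := by
    intro j' hj
    rw [hag.2 (co j') (by simp [lab]) (by simp [lab, hj])]; simp [lab]
  have hhb : ∀ τ i, B (hb τ i) = Sum.inl τ := by
    intro τ i
    rw [hag.2 (hb τ i) (by simp [lab]) (by simp [lab])]; simp [lab]
  have hpd : ∀ τ i l, B (pd τ i l) = Sum.inl τ := by
    intro τ i l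
    rw [hag.2 (pd τ i l) (by simp [lab]) (by simp [lab])]; simp [lab]
  have hcj : B (co j) = Sum.inr (some j) := by
    rcases (hag.1 (co j)).1 (Or.inr (by simp [lab])) with h | h
    · exfalso
      have key : ∀ v, B v = Sum.inr (some j) → (∃ z : Bool × I × L, v = lt z.1 z.2.1 z.2.2) ∨ ∃ κ, v = cl κ := by
        intro v hv
        rcases v with ⟨τ', i', b⟩ | κ | ⟨τ', i'⟩ | _ | j' | ⟨τ', i', l⟩ | l
        · exact Or.inl ⟨(τ', i', b), rfl⟩
        · exact Or.inr ⟨κ, rfl⟩
        · rw [hhb] at hv; simp at hv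
        · rw [h0] at hv; simp at hv
        · by_cases h1 : j' = j
          · subst h1; rw [h] at hv; simp at hv
          · rw [hother j' h1] at hv; simp at hv; exact absurd hv h1
        · rw [hpd] at hv; simp at hv
        · obtain ⟨u, hu, hadj⟩ := hB.nbr hN (pa l)
          rw [hv] at hu
          rw [adj_iff] at hadj
          rcases u with ⟨τ', i', b'⟩ | κ' | ⟨τ', _ | i'⟩ | _ | j' | ⟨τ', i', l'⟩ | l' <;>
            simp [E] at hadj
          · rw [h0] at hu; simp at hu
          · by_cases h1 : j' = j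
            · subst h1; rw [h] at hu; simp at hu
            · rw [hother j' h1] at hu; simp at hu; exact absurd hu h1
      have hcard := (hB (Sum.inr (some j))).2
      have hle : Nat.card {v // B v = Sum.inr (some j)} ≤ Nat.card ((Bool × I × L) ⊕ K) := by
        have hsurj : ∀ v : {v // B v = Sum.inr (some j)}, ∃ z : (Bool × I × L) ⊕ K,
            (Sum.elim (fun z => lt z.1 z.2.1 z.2.2) (fun κ => cl κ) z : Vx I L K M r w) = v := by
          rintro ⟨v, hv⟩
          rcases key v hv with ⟨z, hz⟩ | ⟨κ, hκ⟩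
          · exact ⟨Sum.inl z, hz.symm⟩
          · exact ⟨Sum.inr κ, hκ.symm⟩
        choose g hg using hsurj
        apply Nat.card_le_card_of_injective g
        intro u v huv
        apply Subtype.ext
        rw [← hg u, ← hg v, huv]
      rw [hcard, Nat.card_eq_fintype_card, Fintype.card_sum, Fintype.card_prod, Fintype.card_prod,
        Fintype.card_bool, ← mul_assoc] at hle
      omega
    · exact h
  have hlight : ∀ z, (∃ τ i b, z = lt τ i b) ∨ (∃ κ, z = cl κ) → B z ≠ Sum.inr (some j) := by
    intro z hz hBz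
    obtain ⟨u, hu, v, hv, hTu, hTv, hadj⟩ := exit_edge (hB (Sum.inr (some j))).1
      (fun z => (∃ τ i b, z = lt τ i b) ∨ (∃ κ, z = cl κ)) (a := z) (b := co j) hBz hcj hz (by simp)
    rw [adj_iff] at hadj
    rcases v with ⟨τ', i', b'⟩ | κ' | ⟨τ', i'⟩ | _ | j' | ⟨τ', i', l'⟩ | l'
    · exact hTv (Or.inl ⟨_, _, _, rfl⟩)
    · exact hTv (Or.inr ⟨_, rfl⟩)
    · have : B (hb τ' i') = Sum.inr (some j) := hv
      rw [hhb] at this; simp at this
    · have : B ha = Sum.inr (some j) := hv
      rw [h0] at this; simp at this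
    · rcases hTu with ⟨_, _, _, rfl⟩ | ⟨_, rfl⟩ <;> simp [E] at hadj
    · have : B (pd τ' i' l') = Sum.inr (some j) := hv
      rw [hpd] at this; simp at this
    · rcases hTu with ⟨_, _, _, rfl⟩ | ⟨_, rfl⟩ <;> simp [E] at hadj
  have hm := mass_of hag
  choose σ' hσ' using hm
  refine ⟨σ', ?_⟩
  funext v
  rcases v with ⟨τ', i', b⟩ | κ | ⟨τ', i'⟩ | _ | j' | ⟨τ', i', l⟩ | l
  · by_cases hp : p τ' i' = b
    · rw [hag.2 (lt τ' i' b) (by simp [lab, hp]) (by simp [lab, hp])]
      simp [lab]
    · have h1 : lab (M := M) (K := K) p σ (lt τ' i' b) = Sum.inr none := by simp [lab, hp]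
      rcases (hag.1 _).1 (Or.inl h1) with h | h
      · rw [h]; simp [lab, hp]
      · exact absurd h (hlight _ (Or.inl ⟨_, _, _, rfl⟩))
  · have h1 : lab (M := M) (I := I) p σ (cl κ) = Sum.inr none := by simp [lab]
    rcases (hag.1 _).1 (Or.inl h1) with h | h
    · rw [h]; simp [lab]
    · exact absurd h (hlight _ (Or.inr ⟨_, rfl⟩))
  · rw [hhb]; simp [lab]
  · rw [h0]; simp [lab]
  · by_cases h1 : j' = j
    · subst h1; rw [hcj]; simp [lab]
    · rw [hother j' h1]; simp [lab]
  · rw [hpd]; simp [lab]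
  · rw [hσ']; simp [lab]

end Pool.Agent.Helper54.BR
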