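import Pool.Agent.Helper54.BR.Word3

namespace Pool.Agent.Helper54.BR

/-- States of the automaton: machine states, then `0` sweep right, `1` erase to the left, `2`
finished. -/
abbrev MQ (M : TM) : Type := Fin (M.nq + 3) ⊕ Fin 3

def autTr (M : TM) : MQ M → Fin (M.ng + 3) → Bool → Bool →
    Option (MQ M × Fin (M.ng + 3) × Option Bool)
  | .inl q, a, isL, isR =>
    if q = 1 then some (.inr 0, a, none) else if q = 2 then none else
      if (M.δ q a).2.2 then
        (if isR then none else some (.inl (M.δ q a).1, (M.δ q a).2.1, some true))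
      else
        (if isL then some (.inl (M.δ q a).1, (M.δ q a).2.1, none)
          else some (.inl (M.δ q a).1, (M.δ q a).2.1, some false))
  | .inr s, a, isL, isR =>
    if s = 0 then (if isR then some (.inr 1, a, none) else some (.inr 0, a, some true))
    else if s = 1 then (if isL then some (.inr 2, 2, none) else some (.inr 1, 2, some false))
    else none

def aut (M : TM) : Aut (MQ M) (Fin (M.ng + 3)) where
  tr := autTr M
  hl := by
    rintro (q | s) a isR q' b h
    · simp only [autTr] at h
      split_ifs at h <;> simp at h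
    · simp only [autTr] at h
      split_ifs at h <;> simp at h
  hr := by
    rintro (q | s) a isR q' b h
    · simp only [autTr] at h
      split_ifs at h <;> simp at h
    · simp only [autTr] at h
      split_ifs at h <;> simp at h

variable {M : TM} {S : ℕ}

/-- restriction of a configuration to `S` cells -/
def toConf (c : M.Cfg) (h : c.h < S) : Conf (MQ M) (Fin (M.ng + 3)) S :=
  ⟨.inl c.q, ⟨c.h, h⟩, fun i => c.t i⟩

theorem update_restrict (t : ℕ → Fin (M.ng + 3)) (h : ℕ) (hh : h < S) (b : Fin (M.ng + 3)) :
    (fun i : Fin S => Function.update t h b i) =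
      Function.update (fun i : Fin S => t i) ⟨h, hh⟩ b := by
  funext i
  by_cases hi : i.val = h
  · subst hi
    simp
  · rw [Function.update_of_ne hi, Function.update_of_ne]
    intro e
    exact hi (congrArg Fin.val e)

theorem sim_step (c : M.Cfg) (h : c.h < S) (h' : (M.step c).h < S) :
    Relation.ReflTransGen (fun a b => (aut M).step a = some b) (toConf c h)
      (toConf (M.step c) h') := by
  by_cases hq : c.q = 1 ∨ c.q = 2
  · have e : M.step c = c := by simp only [TM.step]; rw [if_pos hq]
    have : toConf (M.step c) h' = toConf c h := by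
      simp only [toConf, e]
    rw [this]
  · apply Relation.ReflTransGen.single
    have hq1 : c.q ≠ 1 := fun h => hq (Or.inl h)
    have hq2 : c.q ≠ 2 := fun h => hq (Or.inr h)
    have e : M.step c = ⟨(M.δ c.q (c.t c.h)).1,
      if (M.δ c.q (c.t c.h)).2.2 then c.h + 1 else c.h - 1,
      Function.update c.t c.h (M.δ c.q (c.t c.h)).2.1⟩ := by
      simp only [TM.step]; rw [if_neg hq]
    have e2 : toConf (M.step c) h' = ⟨.inl (M.δ c.q (c.t c.h)).1,
        ⟨if (M.δ c.q (c.t c.h)).2.2 then c.h + 1 else c.h - 1, by rw [e] at h'; exact h'⟩,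
        Function.update (fun i : Fin S => c.t i) ⟨c.h, h⟩ (M.δ c.q (c.t c.h)).2.1⟩ := by
      rw [← update_restrict]
      simp only [toConf, e]
    rw [e2]
    simp only [Aut.step, toConf, aut, autTr, if_neg hq1, if_neg hq2]
    by_cases hd : (M.δ c.q (c.t c.h)).2.2 = true
    · have h1 : c.h + 1 < S := by
        rw [e] at h'
        simpa [hd] using h'
      have h2 : isRgt (⟨c.h, h⟩ : Fin S) = false := by
        simp only [isRgt, decide_eq_false_iff_not]; omega
      simp only [hd, if_true, h2, Bool.false_eq_true, if_false, mvTo]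
      rw [dif_pos h1]
    · have hd' : (M.δ c.q (c.t c.h)).2.2 = false := by simpa using hd
      by_cases h0 : c.h = 0
      · have h2 : isLft (⟨c.h, h⟩ : Fin S) = true := by simp [isLft, h0]
        simp only [hd', h2, if_true, Bool.false_eq_true, if_false, mvTo]
        simp [h0]
      · have h2 : isLft (⟨c.h, h⟩ : Fin S) = false := by simp [isLft, h0]
        simp only [hd', h2, Bool.false_eq_true, if_false, mvTo]

theorem sim (c : M.Cfg) (h : ∀ n, (M.step^[n] c).h < S) (n : ℕ) :
    Relation.ReflTransGen (fun a b => (aut M).step a = some b) (toConf c (h 0))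
      (toConf (M.step^[n] c) (h n)) := by
  induction n with
  | zero => exact .refl
  | succ n ih =>
    refine ih.trans ?_
    have e : M.step^[n + 1] c = M.step (M.step^[n] c) := by
      rw [Function.iterate_succ_apply']
    have h1 := sim_step (M.step^[n] c) (h n) (e ▸ h (n + 1))
    have e2 : toConf (M.step^[n + 1] c) (h (n + 1)) = toConf (M.step (M.step^[n] c)) (e ▸ h (n + 1)) := by
      simp only [toConf, e]
    rw [e2]
    exact h1

theorem sweepR (n : ℕ) : ∀ (h : Fin S) (t : Fin S → Fin (M.ng + 3)), S = h.val + n + 1 →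
    Relation.ReflTransGen (fun a b => (aut M).step a = some b) ⟨.inr 0, h, t⟩
      ⟨.inr 1, ⟨S - 1, by have := h.2; omega⟩, t⟩ := by
  induction n with
  | zero =>
    intro h t hS
    apply Relation.ReflTransGen.single
    have h2 : isRgt h = true := by simp only [isRgt, decide_eq_true_eq]; omega
    simp only [Aut.step, aut, autTr, if_true, h2, mvTo, Function.update_eq_self, Option.some.injEq,
      Conf.mk.injEq, true_and, and_true]
    exact Fin.ext (by simp only; omega)
  | succ n ih =>
    intro h t hS
    have h1 : h.val + 1 < S := by omega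
    refine Relation.ReflTransGen.head ?_ (ih ⟨h.val + 1, h1⟩ t (by simp only; omega))
    have h2 : isRgt h = false := by simp only [isRgt, decide_eq_false_iff_not]; omega
    simp only [Aut.step, aut, autTr, if_true, h2, mvTo, Function.update_eq_self, Option.some.injEq,
      Bool.false_eq_true, if_false, Conf.mk.injEq, true_and, and_true]
    rw [dif_pos h1]

theorem sweepL (n : ℕ) : ∀ (h : Fin S) (t : Fin S → Fin (M.ng + 3)), h.val = n →
    (∀ i : Fin S, h.val < i.val → t i = 2) →
    Relation.ReflTransGen (fun a b => (aut M).step a = some b) ⟨.inr 1, h, t⟩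
      ⟨.inr 2, ⟨0, by have := h.2; omega⟩, fun _ => 2⟩ := by
  induction n with
  | zero =>
    intro h t hh ht
    apply Relation.ReflTransGen.single
    have h2 : isLft h = true := by simp [isLft, hh]
    have h10 : (1 : Fin 3) ≠ 0 := by decide
    simp only [Aut.step, aut, autTr, if_true, h2, mvTo, Option.some.injEq, if_neg h10,
      Conf.mk.injEq, true_and]
    refine ⟨Fin.ext hh, ?_⟩
    funext i
    by_cases hi : i = h
    · rw [hi, Function.update_self]
    · rw [Function.update_of_ne hi]
      apply ht
      have : i.val ≠ h.val := fun e => hi (Fin.ext e)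
      omega
  | succ n ih =>
    intro h t hh ht
    have h10 : (1 : Fin 3) ≠ 0 := by decide
    have hlt : h.val - 1 < S := by have := h.2; omega
    refine Relation.ReflTransGen.head ?_ (ih ⟨h.val - 1, hlt⟩ (Function.update t h 2)
      (by simp only; omega) ?_)
    · have h2 : isLft h = false := by simp [isLft]; omega
      simp only [Aut.step, aut, autTr, if_true, h2, mvTo, Option.some.injEq, if_neg h10,
        Bool.false_eq_true, if_false]
    · intro i hi
      simp only at hi
      by_cases hi2 : i = h
      · rw [hi2, Function.update_self]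
      · rw [Function.update_of_ne hi2]
        apply ht
        have : i.val ≠ h.val := fun e => hi2 (Fin.ext e)
        omega

/-- the final configuration -/
def finC (M : TM) (S : ℕ) (hS : 0 < S) : Conf (MQ M) (Fin (M.ng + 3)) S :=
  ⟨.inr 2, ⟨0, hS⟩, fun _ => 2⟩

theorem finC_step (hS : 0 < S) : (aut M).step (finC M S hS) = none := by
  have h1 : (2 : Fin 3) ≠ 0 := by decide
  have h2 : (2 : Fin 3) ≠ 1 := by decide
  simp only [Aut.step, finC, aut, autTr, if_neg h1, if_neg h2]

theorem acc_reach (c : M.Cfg) (h : c.h < S) (hq : c.q = 1) :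
    Relation.ReflTransGen (fun a b => (aut M).step a = some b) (toConf c h)
      (finC M S (by omega)) := by
  have h1 : (aut M).step (toConf c h) = some ⟨.inr 0, ⟨c.h, h⟩, fun i => c.t i⟩ := by
    simp only [Aut.step, toConf, aut, autTr, hq, if_true, mvTo, Option.some.injEq, Conf.mk.injEq,
      true_and]
    exact Function.update_eq_self _ _
  refine Relation.ReflTransGen.head h1 ((sweepR (S - 1 - c.h) ⟨c.h, h⟩ _ (by simp only; omega)).trans ?_)
  refine sweepL (S - 1) _ _ rfl ?_
  intro i hi
  have := i.2
  simp only at hi
  omega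

theorem rej_not (c c' : M.Cfg) (h : c.h < S) (h' : c'.h < S) (hq : c'.q = 2)
    (hr : Relation.ReflTransGen (fun a b => (aut M).step a = some b) (toConf c h) (toConf c' h')) :
    ¬ Relation.ReflTransGen (fun a b => (aut M).step a = some b) (toConf c h)
      (finC M S (by omega)) := by
  intro hf
  have hterm : (aut M).step (toConf c' h') = none := by
    have h21 : (2 : Fin (M.nq + 3)) ≠ 1 := by
      intro e
      have h3 : (2 : Fin (M.nq + 3)).val = 2 % (M.nq + 3) := rfl
      have h4 : (1 : Fin (M.nq + 3)).val = 1 % (M.nq + 3) := rfl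
      have h5 := congrArg Fin.val e
      rw [h3, h4, Nat.mod_eq_of_lt (by omega), Nat.mod_eq_of_lt (by omega)] at h5
      omega
    simp only [Aut.step, toConf, aut, autTr, hq, if_neg h21, if_true]
  have hj : Relation.Join (Relation.ReflTransGen
      (fun a b : Conf (MQ M) (Fin (M.ng + 3)) S => (aut M).step a = some b))
      (toConf c' h') (finC M S (by omega)) := by
    refine Relation.church_rosser ?_ hr hf
    intro a b c hab hac
    rw [hab] at hac
    simp only [Option.some.injEq] at hac
    subst hac
    exact ⟨b, .refl, .refl⟩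
  obtain ⟨z, hz1, hz2⟩ := hj
  have e1 : toConf c' h' = z := by
    rcases Relation.ReflTransGen.cases_head hz1 with h3 | ⟨c, h3, _⟩
    · exact h3
    · rw [hterm] at h3; simp at h3
  have e2 : finC M S (by omega) = z := by
    rcases Relation.ReflTransGen.cases_head hz2 with h3 | ⟨c, h3, _⟩
    · exact h3
    · rw [finC_step] at h3; simp at h3
  rw [← e2] at e1
  simp [toConf, finC] at e1

/-- acceptance of the machine is reachability of the final configuration -/
theorem mach_iff {L : Set (List Bool)} {x : List Bool}
    (h : ∀ n, (M.step^[n] (M.init x)).h < S)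
    (hx : ∃ n, (x ∈ L ∧ (M.step^[n] (M.init x)).q = 1) ∨ (x ∉ L ∧ (M.step^[n] (M.init x)).q = 2)) :
    x ∈ L ↔ Relation.ReflTransGen (fun a b => (aut M).step a = some b) (toConf (M.init x) (h 0))
      (finC M S (lt_of_le_of_lt (Nat.zero_le _) (h 0))) := by
  obtain ⟨n, ⟨h1, h2⟩ | ⟨h1, h2⟩⟩ := hx
  · refine ⟨fun _ => ?_, fun _ => h1⟩
    exact (sim _ h n).trans (acc_reach _ _ h2)
  · refine ⟨fun h => absurd h h1, fun hr => ?_⟩
    exact absurd hr (rej_not _ _ (h 0) (h n) h2 (sim _ h n))

end Pool.Agent.Helper54.BR
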