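import Pool.Agent.Helper54.BR.Iso
import Pool.Agent.Helper54.BR.Mach

namespace Pool.Agent.Helper54.BR

open Vx

/-- letters of the words of a machine -/
abbrev Al (M : TM) : Type := Lt (MQ M) (Fin (M.ng + 3))
abbrev W3 (M : TM) : Type := T3 (MQ M) (Fin (M.ng + 3))

/-- the blank letter -/
def dl (M : TM) : Al M := (2, none)
def d3 (M : TM) : W3 M := (dl M, dl M, dl M)

/-- kinds of vertices -/
inductive Tg : Type
  | t0 | t1 | t2 | t3 | t4 | t5 | t6
deriving DecidableEq

instance : Fintype Tg := ⟨{.t0, .t1, .t2, .t3, .t4, .t5, .t6}, by intro x; cases x <;> simp⟩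

open Tg

/-- finite part of a vertex code -/
structure FD (M : TM) where
  g : Tg
  τ : Bool
  b : Al M
  u : W3 M
  v : W3 M

def FD.equiv (M : TM) : FD M ≃ Tg × Bool × Al M × W3 M × W3 M where
  toFun x := (x.g, x.τ, x.b, x.u, x.v)
  invFun x := ⟨x.1, x.2.1, x.2.2.1, x.2.2.2.1, x.2.2.2.2⟩
  left_inv _ := rfl
  right_inv _ := rfl

instance (M : TM) : Fintype (FD M) := Fintype.ofEquiv _ (FD.equiv M).symm

/-- number of masses in the district of `a`, number of masses in a corner district -/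
structure Num where
  S : ℕ
  Mp : ℕ
  wA : ℕ
  n1 : ℕ

variable {M : TM} {r : ℕ} {Z : Num}

abbrev VX (M : TM) (r : ℕ) (Z : Num) : Type :=
  Vx (Fin Z.S) (Al M) (Fin Z.S × W3 M × W3 M) Z.Mp r (Z.wA + r * Z.n1)

/-- masses as a structured type -/
def ew (r : ℕ) (Z : Num) : Fin Z.wA ⊕ (Fin r × Fin Z.n1) ≃ Fin (Z.wA + r * Z.n1) :=
  (Equiv.sumCongr (Equiv.refl _) finProdFinEquiv).trans finSumFinEquiv

/-- the assignment of the masses -/
def sig (r : ℕ) (Z : Num) (l : Fin (Z.wA + r * Z.n1)) : Option (Fin r) :=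
  match (ew r Z).symm l with
  | .inl _ => none
  | .inr (j, _) => some j

theorem sig_inl (a : Fin Z.wA) : sig r Z (ew r Z (.inl a)) = none := by
  simp [sig]

theorem sig_inr (j : Fin r) (l : Fin Z.n1) : sig r Z (ew r Z (.inr (j, l))) = some j := by
  simp [sig]

theorem card_sig (j : Fin r) : Nat.card {l // sig r Z l = some j} = Z.n1 := by
  have e : {l // sig r Z l = some j} ≃ Fin Z.n1 := by
    refine Equiv.symm ⟨fun l => ⟨ew r Z (.inr (j, l)), sig_inr j l⟩, fun l =>
      match h : (ew r Z).symm l.1 with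
      | .inl _ => absurd l.2 (by simp [sig, h])
      | .inr (_, l) => l, ?_, ?_⟩
    · intro l
      simp only
      split
      · next h => simp at h
      · next h => simp only [Equiv.symm_apply_apply, Sum.inr.injEq, Prod.mk.injEq] at h; exact h.2.symm
    · rintro ⟨l, hl⟩
      obtain ⟨x, rfl⟩ := (ew r Z).surjective l
      rcases x with a | ⟨j', l'⟩
      · rw [sig_inl] at hl; simp at hl
      · have hl' := hl
        rw [sig_inr] at hl'
        simp only [Option.some.injEq] at hl'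
        subst hl'
        apply Subtype.ext
        simp only
        split
        · next h => simp at h
        · next h =>
          simp only [Equiv.symm_apply_apply, Sum.inr.injEq, Prod.mk.injEq] at h
          rw [h.2]
  rw [Nat.card_congr e, Nat.card_eq_fintype_card, Fintype.card_fin]

def oc {S : ℕ} : Option (Fin S) → ℕ
  | none => 0
  | some i => i.val + 1

/-- codes of the vertices -/
def cd : VX M r Z → FD M × ℕ
  | .lt τ i b => (⟨t0, τ, b, d3 M, d3 M⟩, i.val)
  | .cl κ => (⟨t1, false, dl M, κ.2.1, κ.2.2⟩, κ.1.val)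
  | .hb τ i => (⟨t2, τ, dl M, d3 M, d3 M⟩, oc i)
  | .ha => (⟨t3, false, dl M, d3 M, d3 M⟩, 0)
  | .co j => (⟨t4, false, dl M, d3 M, d3 M⟩, j.val)
  | .pd τ i _ => (⟨t5, τ, dl M, d3 M, d3 M⟩, oc i)
  | .pa l => (⟨t6, false, dl M, d3 M, d3 M⟩, oc (sig r Z l))

/-- directed adjacency on codes: finite data and the comparisons
`i = 0`, `i + 1 = S`, `i' = 0`, `i' + 1 = i`, `i' = i`, `i' = i + 1` -/
def Ec (x y : FD M) (e0 eS f0 c1 c2 c3 : Bool) : Prop :=
  match x.g, y.g with
  | t0, t2 => x.τ = y.τ ∧ (f0 = true ∨ c3 = true)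
  | t0, t3 => True
  | t1, t0 => (c1 = true ∧ y.b = (if y.τ then x.v else x.u).1) ∨
      (c2 = true ∧ y.b = (if y.τ then x.v else x.u).2.1) ∨
      (c3 = true ∧ y.b = (if y.τ then x.v else x.u).2.2)
  | t1, t3 => ¬ (¬ (aut M).Loc e0 eS x.u x.v ∧ (e0 = true → x.u.1 = dl M ∧ x.v.1 = dl M) ∧
      (eS = true → x.u.2.2 = dl M ∧ x.v.2.2 = dl M))
  | t5, t2 => x.τ = y.τ ∧ c2 = true
  | t5, t4 => True
  | t6, t3 => True
  | t6, t4 => True
  | _, _ => False

def Ecd (S : ℕ) (u v : FD M × ℕ) : Prop :=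
  Ec u.1 v.1 (decide (u.2 = 0)) (decide (u.2 + 1 = S)) (decide (v.2 = 0)) (decide (v.2 + 1 = u.2))
    (decide (v.2 = u.2)) (decide (v.2 = u.2 + 1))

theorem E_code (u v : VX M r Z) : E (csp (aut M) (dl M) Z.S) u v ↔ Ecd Z.S (cd u) (cd v) := by
  rcases u with ⟨τ, i, b⟩ | κ | ⟨τ, _ | i⟩ | _ | j | ⟨τ, _ | i, l⟩ | l <;>
    rcases v with ⟨τ', i', b'⟩ | κ' | ⟨τ', _ | i'⟩ | _ | j' | ⟨τ', _ | i', l'⟩ | l' <;>
    simp [E, Ecd, Ec, cd, oc, csp, isLft, isRgt, Fin.ext_iff] <;> first | omega | exact Iff.rfl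

/-- letter functions of the start and of the final configuration -/
def ltrA (M : TM) (z : Bool) (o : Option Bool) : Al M :=
  (match o with
    | some true => 1
    | some false => 0
    | none => 2, if z then some (.inl 0) else none)

def ltrB (M : TM) (z : Bool) (_ : Option Bool) : Al M := (2, if z then some (.inr 2) else none)

open Classical in
/-- label of a vertex code, up to the index -/
noncomputable def lb0 (ℓ : Bool → Option Bool → Al M) (x : FD M) (z : Bool) (o : Option Bool) : ℕ :=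
  match x.g with
  | t0 => if ℓ z o = x.b then (if x.τ then 1 else 0) else 2
  | t1 => 2
  | t2 => if x.τ then 1 else 0
  | t3 => 2
  | t4 => 3
  | t5 => if x.τ then 1 else 0
  | t6 => 2

/-- whether the index has to be added -/
def ladd (x : FD M) : Bool :=
  match x.g with
  | t4 => true
  | t6 => true
  | _ => false

noncomputable def lbc (ℓ : Bool → Option Bool → Al M) (x : List Bool) (u : FD M × ℕ) : ℕ :=
  lb0 ℓ u.1 (decide (u.2 = 0)) x[u.2]? + if ladd u.1 then u.2 else 0

theorem lab_code (ℓ : Bool → Option Bool → Al M) (x : List Bool) (p : Bool → Fin Z.S → Al M)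
    (hp : ∀ τ i, p τ i = ℓ (decide (i.val = 0)) x[i.val]?) (v : VX M r Z) :
    numL (lab p (sig r Z) v) = lbc ℓ x (cd v) := by
  rcases v with ⟨τ, i, b⟩ | κ | ⟨τ, i⟩ | _ | j | ⟨τ, i, l⟩ | l
  · by_cases h : p τ i = b
    · have h2 : ℓ (decide (i.val = 0)) x[i.val]? = b := by rw [← hp τ i]; exact h
      cases τ <;> simp [lab, lbc, lb0, ladd, cd, h, numL] <;> exact h2
    · have h2 : ¬ ℓ (decide (i.val = 0)) x[i.val]? = b := by rw [← hp τ i]; exact h
      cases τ <;> simp [lab, lbc, lb0, ladd, cd, h, numL] <;> exact h2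
  · rfl
  · cases τ <;> rfl
  · rfl
  · simp [lab, lbc, lb0, ladd, cd, numL, Nat.add_comm]
  · cases τ <;> rfl
  · simp only [lab, lbc, lb0, ladd, cd]
    rcases sig r Z l with _ | j
    · rfl
    · simp [numL, oc]; omega

end Pool.Agent.Helper54.BR
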