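import Pool.Agent.Helper54.BR.Lift

namespace Pool.Agent.Helper54.BR

variable {I L K : Type} {M r w N : ℕ} {C : CSP I L K}

open Vx

theorem pick3 {V : Type} {R : Finset V} (hR : R.card ≤ 2) (a b c : V) (hab : a ≠ b)
    (hac : a ≠ c) (hbc : b ≠ c) : ∃ x, (x = a ∨ x = b ∨ x = c) ∧ x ∉ R := by
  classical
  by_contra hcon
  push Not at hcon
  have h : ({a, b, c} : Finset V) ⊆ R := by
    intro x hx
    simp only [Finset.mem_insert, Finset.mem_singleton] at hx
    exact hcon x hx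
  have h2 := Finset.card_le_card h
  rw [Finset.card_eq_three.2 ⟨a, b, c, hab, hac, hbc, rfl⟩] at h2
  omega

theorem three_conn [Fintype I] [Fintype L] [Fintype K] [Nonempty I] [Nonempty L]
    (h3 : C.Three) (hr : 2 ≤ r) (hM : 3 ≤ M) (hw : 3 ≤ w) : ThreeConnected (gr C M r w) := by
  constructor
  · rw [card_Vx]
    have : 1 ≤ Fintype.card I := Fintype.card_pos
    nlinarith
  intro R hR
  by_cases hco : ∃ j : Fin r, (co j : Vx I L K M r w) ∉ R
  · obtain ⟨j, hj⟩ := hco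
    have hc : co j ∈ {v : Vx I L K M r w | v ∉ R} := hj
    apply conn_center hc
    have hpd : ∀ τ i l (hv : pd τ i l ∈ {v : Vx I L K M r w | v ∉ R}),
        ((gr C M r w).induce _).Reachable ⟨pd τ i l, hv⟩ ⟨_, hc⟩ := fun τ i l hv =>
      reach_step (SimpleGraph.Reachable.refl _) hv (Or.inl (by simp [E]))
    have hpa : ∀ l (hv : pa l ∈ {v : Vx I L K M r w | v ∉ R}),
        ((gr C M r w).induce _).Reachable ⟨pa l, hv⟩ ⟨_, hc⟩ := fun l hv =>
      reach_step (SimpleGraph.Reachable.refl _) hv (Or.inl (by simp [E]))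
    have hpk : ∀ τ i, ∃ l, (pd τ i l : Vx I L K M r w) ∉ R := by
      intro τ i
      obtain ⟨x, hx, hx2⟩ := pick3 hR (pd τ i ⟨0, by omega⟩) (pd τ i ⟨1, by omega⟩)
        (pd τ i ⟨2, by omega⟩) (by simp) (by simp) (by simp)
      rcases hx with rfl | rfl | rfl <;> exact ⟨_, hx2⟩
    have hpk2 : ∃ l, (pa l : Vx I L K M r w) ∉ R := by
      obtain ⟨x, hx, hx2⟩ := pick3 hR (pa ⟨0, by omega⟩) (pa ⟨1, by omega⟩)
        (pa ⟨2, by omega⟩) (by simp) (by simp) (by simp)
      rcases hx with rfl | rfl | rfl <;> exact ⟨_, hx2⟩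
    have hhb : ∀ τ i (hv : hb τ i ∈ {v : Vx I L K M r w | v ∉ R}),
        ((gr C M r w).induce _).Reachable ⟨hb τ i, hv⟩ ⟨_, hc⟩ := by
      intro τ i hv
      obtain ⟨l, hl⟩ := hpk τ i
      exact reach_step (hpd τ i l hl) hv (Or.inr (by simp [E]))
    have hha : ∀ (hv : ha ∈ {v : Vx I L K M r w | v ∉ R}),
        ((gr C M r w).induce _).Reachable ⟨ha, hv⟩ ⟨_, hc⟩ := by
      intro hv
      obtain ⟨l, hl⟩ := hpk2
      exact reach_step (hpa l hl) hv (Or.inr (by simp [E]))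
    have hlt : ∀ τ i b (hv : lt τ i b ∈ {v : Vx I L K M r w | v ∉ R}),
        ((gr C M r w).induce _).Reachable ⟨lt τ i b, hv⟩ ⟨_, hc⟩ := by
      intro τ i b hv
      obtain ⟨x, hx, hx2⟩ := pick3 hR (hb τ (some i)) (hb τ none) ha (by simp) (by simp) (by simp)
      rcases hx with rfl | rfl | rfl
      · exact reach_step (hhb _ _ hx2) hv (Or.inl (by simp [E]))
      · exact reach_step (hhb _ _ hx2) hv (Or.inl (by simp [E]))
      · exact reach_step (hha hx2) hv (Or.inl (by simp [E]))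
    intro v hv
    rcases v with ⟨τ', i', b⟩ | κ | ⟨τ', i'⟩ | _ | j' | ⟨τ', i', l⟩ | l
    · exact hlt _ _ _ hv
    · obtain ⟨z₁, z₂, z₃, h12, h13, h23, hz⟩ := h3 κ
      have hne : ∀ z z' : Bool × I × L, z ≠ z' →
          (lt z.1 z.2.1 z.2.2 : Vx I L K M r w) ≠ lt z'.1 z'.2.1 z'.2.2 := by
        intro z z' h h'
        apply h
        simp only [Vx.lt.injEq] at h'
        ext1
        · exact h'.1
        · exact Prod.ext h'.2.1 h'.2.2
      obtain ⟨x, hx, hx2⟩ := pick3 hR _ _ _ (hne _ _ h12) (hne _ _ h13) (hne _ _ h23)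
      have : ∃ z : Bool × I × L, C.inc κ z.1 z.2.1 z.2.2 ∧ x = lt z.1 z.2.1 z.2.2 := by
        rcases hx with rfl | rfl | rfl
        · exact ⟨_, hz _ (Or.inl rfl), rfl⟩
        · exact ⟨_, hz _ (Or.inr (Or.inl rfl)), rfl⟩
        · exact ⟨_, hz _ (Or.inr (Or.inr rfl)), rfl⟩
      obtain ⟨z, hz1, rfl⟩ := this
      exact reach_step (hlt _ _ _ hx2) hv (Or.inl hz1)
    · exact hhb _ _ hv
    · exact hha hv
    · obtain ⟨l, hl⟩ := hpk2
      exact reach_step (hpa l hl) hv (Or.inr (by simp [E]))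
    · exact hpd _ _ _ hv
    · exact hpa _ hv
  · push Not at hco
    have halive : ∀ v : Vx I L K M r w, (∀ j, v ≠ co j) → v ∉ R := by
      intro v hv hvR
      obtain ⟨x, hx, hx2⟩ := pick3 hR v (co ⟨0, by omega⟩) (co ⟨1, by omega⟩) (hv _) (hv _)
        (by simp)
      rcases hx with rfl | rfl | rfl
      · exact hx2 hvR
      · exact hx2 (hco _)
      · exact hx2 (hco _)
    have hc : ha ∈ {v : Vx I L K M r w | v ∉ R} := halive _ (by simp)
    apply conn_center hc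
    have hlt : ∀ τ i b (hv : lt τ i b ∈ {v : Vx I L K M r w | v ∉ R}),
        ((gr C M r w).induce _).Reachable ⟨lt τ i b, hv⟩ ⟨_, hc⟩ := fun τ i b hv =>
      reach_step (SimpleGraph.Reachable.refl _) hv (Or.inl (by simp [E]))
    obtain ⟨i₀⟩ := ‹Nonempty I›
    obtain ⟨b₀⟩ := ‹Nonempty L›
    have hhb : ∀ τ i (hv : hb τ i ∈ {v : Vx I L K M r w | v ∉ R}),
        ((gr C M r w).induce _).Reachable ⟨hb τ i, hv⟩ ⟨_, hc⟩ := by
      intro τ i hv
      rcases i with _ | i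
      · exact reach_step (hlt τ i₀ b₀ (halive _ (by simp))) hv (Or.inr (by simp [E]))
      · exact reach_step (hlt τ i b₀ (halive _ (by simp))) hv (Or.inr (by simp [E]))
    intro v hv
    rcases v with ⟨τ', i', b⟩ | κ | ⟨τ', i'⟩ | _ | j' | ⟨τ', i', l⟩ | l
    · exact hlt _ _ _ hv
    · obtain ⟨z₁, z₂, z₃, h12, h13, h23, hz⟩ := h3 κ
      exact reach_step (hlt _ _ _ (halive _ (by simp))) hv (Or.inl (hz z₁ (Or.inl rfl)))
    · exact hhb _ _ hv
    · exact SimpleGraph.Reachable.refl _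
    · exact absurd (hco _) hv
    · exact reach_step (hhb τ' i' (halive _ (by simp))) hv (Or.inl (by simp [E]))
    · exact reach_step (SimpleGraph.Reachable.refl _) hv (Or.inl (by simp [E]))

end Pool.Agent.Helper54.BR
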