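import Pool.Agent.Helper54.BR.Side

namespace Pool.Agent.Helper54.BR

variable {I L K : Type} {M r w N : ℕ} {C : CSP I L K}

open Vx

/-- numerical parameters of the construction -/
structure Par (I L K : Type) [Fintype I] [Fintype L] [Fintype K] (M r w N : ℕ) : Prop where
  hM : 2 * Fintype.card I * Fintype.card L + Fintype.card K < M
  hN : N = (Fintype.card I + 1) * (M + 1) + Fintype.card I
  hV : Fintype.card (Vx I L K M r w) = (r + 3) * N

theorem orient {V X : Type} [DecidableEq X] {A B : V → X} {i j : X} (h : Agree A B i j) {x : V}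
    (hx : A x = i ∨ A x = j) : ∃ ρ : Equiv.Perm X, Agree A (ρ ∘ B) i j ∧ (ρ ∘ B) x = A x := by
  by_cases h1 : B x = A x
  · exact ⟨1, h, h1⟩
  · refine ⟨Equiv.swap i j, h.swap, ?_⟩
    simp only [Function.comp]
    rcases hx with hx | hx
    · rcases (h.1 x).1 (Or.inl hx) with h2 | h2
      · rw [hx] at h1; exact absurd h2 h1
      · rw [hx, h2]; exact Equiv.swap_apply_right _ _
    · rcases (h.1 x).1 (Or.inr hx) with h2 | h2
      · rw [hx, h2]; exact Equiv.swap_apply_left _ _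
      · rw [hx] at h1; exact absurd h2 h1

variable [Fintype I] [Fintype L] [Fintype K]

theorem agree_good (P : Par I L K M r w N) {p : Bool → I → L} {σ : Fin w → Option (Fin r)}
    {B : Vx I L K M r w → Lb r} (hA : Bal (gr C M r w) N (lab p σ)) (hB : Bal (gr C M r w) N B)
    {i j : Lb r} (hag : Agree (lab p σ) B i j) :
    ∃ (ρ : Equiv.Perm (Lb r)) (p' : Bool → I → L) (σ' : Fin w → Option (Fin r)),
      ρ ∘ B = lab p' σ' ∧ ∃ τ, p' τ = p τ := by
  have hN1 : 2 ≤ N := by
    have h1 := P.hM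
    have h2 := P.hN
    nlinarith [Nat.zero_le (Fintype.card I)]
  have hN2 : 2 * Fintype.card I * Fintype.card L + Fintype.card K < N := by
    have h1 := P.hM
    have h2 := P.hN
    nlinarith [Nat.zero_le (Fintype.card I)]
  -- the cases
  have c1 : ∀ {B : Vx I L K M r w → Lb r}, Bal (gr C M r w) N B →
      Agree (lab p σ) B (Sum.inl false) (Sum.inl true) →
      ∃ (ρ : Equiv.Perm (Lb r)) (p' : Bool → I → L) (σ' : Fin w → Option (Fin r)),
      ρ ∘ B = lab p' σ' ∧ ∃ τ, p' τ = p τ := by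
    intro B hB hag
    obtain ⟨ρ, h1, h2⟩ := orient hag (x := hb false none) (Or.inl (by simp [lab]))
    exact ⟨ρ, p, σ, case_sides hA (hB.comp ρ) h1 (h2.trans (by simp [lab])), false, rfl⟩
  have c2 : ∀ {B : Vx I L K M r w → Lb r} (τ : Bool) (j : Fin r), Bal (gr C M r w) N B →
      Agree (lab p σ) B (Sum.inl τ) (Sum.inr (some j)) →
      ∃ (ρ : Equiv.Perm (Lb r)) (p' : Bool → I → L) (σ' : Fin w → Option (Fin r)),
      ρ ∘ B = lab p' σ' ∧ ∃ τ, p' τ = p τ := by
    intro B τ j hB hag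
    obtain ⟨ρ, h1, h2⟩ := orient hag (x := co j) (Or.inr (by simp [lab]))
    exact ⟨ρ, p, σ, case_side_corner hN1 hA (hB.comp ρ) τ j h1 (h2.trans (by simp [lab])),
      false, rfl⟩
  have c3 : ∀ {B : Vx I L K M r w → Lb r} (τ : Bool), Bal (gr C M r w) N B →
      Agree (lab p σ) B (Sum.inl τ) (Sum.inr none) →
      ∃ (ρ : Equiv.Perm (Lb r)) (p' : Bool → I → L) (σ' : Fin w → Option (Fin r)),
      ρ ∘ B = lab p' σ' ∧ ∃ τ, p' τ = p τ := by
    intro B τ hB hag
    obtain ⟨ρ, h1, h2⟩ := orient hag (x := ha) (Or.inr (by simp [lab]))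
    obtain ⟨p', h3, h4⟩ := case_side_hub P.hN hN1 P.hM (hB.comp ρ) τ h1 (h2.trans (by simp [lab]))
    refine ⟨ρ, p', σ, h4, !τ, h3 _ ?_⟩
    cases τ <;> simp
  have c4 : ∀ {B : Vx I L K M r w → Lb r} (j : Fin r), Bal (gr C M r w) N B →
      Agree (lab p σ) B (Sum.inr none) (Sum.inr (some j)) →
      ∃ (ρ : Equiv.Perm (Lb r)) (p' : Bool → I → L) (σ' : Fin w → Option (Fin r)),
      ρ ∘ B = lab p' σ' ∧ ∃ τ, p' τ = p τ := by
    intro B j hB hag
    obtain ⟨ρ, h1, h2⟩ := orient hag (x := ha) (Or.inl (by simp [lab]))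
    obtain ⟨σ', h4⟩ := case_hub_corner hN1 hN2 (hB.comp ρ) j h1 (h2.trans (by simp [lab]))
    exact ⟨ρ, p, σ', h4, false, rfl⟩
  have c5 : ∀ {B : Vx I L K M r w → Lb r} (i j : Fin r), i ≠ j → Bal (gr C M r w) N B →
      Agree (lab p σ) B (Sum.inr (some i)) (Sum.inr (some j)) →
      ∃ (ρ : Equiv.Perm (Lb r)) (p' : Bool → I → L) (σ' : Fin w → Option (Fin r)),
      ρ ∘ B = lab p' σ' ∧ ∃ τ, p' τ = p τ := by
    intro B i j hij hB hag
    obtain ⟨ρ, h1, h2⟩ := orient hag (x := co i) (Or.inl (by simp [lab]))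
    obtain ⟨σ', h4⟩ := case_corners hN1 (hB.comp ρ) i j hij h1 (h2.trans (by simp [lab]))
    exact ⟨ρ, p, σ', h4, false, rfl⟩
  by_cases hij : i = j
  · subst hij
    refine ⟨1, p, σ, ?_, false, rfl⟩
    exact hag.eq fun v => by simpa using (hag.1 v).symm
  · rcases i with τ | _ | i <;> rcases j with τ' | _ | j
    · cases τ <;> cases τ'
      · exact absurd rfl hij
      · exact c1 hB hag
      · exact c1 hB hag.symm
      · exact absurd rfl hij
    · exact c3 τ hB hag
    · exact c2 τ j hB hag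
    · exact c3 τ' hB hag.symm
    · exact absurd rfl hij
    · exact c4 j hB hag
    · exact c2 τ' i hB hag.symm
    · exact c4 i hB hag.symm
    · exact c5 i j (fun h => hij (by rw [h])) hB hag

theorem MoveX.of_comp {V X : Type} {A B : V → X} {π : Equiv.Perm X} (h : MoveX (π ∘ A) B) :
    MoveX A B := by
  obtain ⟨i, j, ρ, h1, h2⟩ := h
  refine ⟨π.symm i, π.symm j, π.trans ρ, ?_, ?_⟩
  · intro v
    simp only [Equiv.trans_apply, Equiv.apply_symm_apply]
    rw [← h1 v]
    simp only [Function.comp, Equiv.eq_symm_apply]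
  · intro c hi hj v
    have hi' : π c ≠ i := fun h => hi (by rw [← h, Equiv.symm_apply_apply])
    have hj' : π c ≠ j := fun h => hj (by rw [← h, Equiv.symm_apply_apply])
    have := h2 (π c) hi' hj' v
    simp only [Function.comp, EmbeddingLike.apply_eq_iff_eq] at this
    simpa using this

omit [Fintype I] [Fintype L] [Fintype K] in
theorem sat_of_bal {p : Bool → I → L} {σ : Fin w → Option (Fin r)} (hN : 2 ≤ N)
    (h : Bal (gr C M r w) N (lab p σ)) : C.Sat p := by
  intro κ hκ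
  obtain ⟨u, hu, hadj⟩ := h.nbr hN (cl κ)
  rw [adj_iff] at hadj
  rcases u with ⟨τ, i, b⟩ | κ' | ⟨τ, _ | i⟩ | _ | j | ⟨τ, i, l⟩ | l <;> simp [E] at hadj
  · refine ⟨τ, i, b, hadj, ?_⟩
    intro hb
    simp [lab, hb] at hu
  · exact absurd hκ hadj

/-- reachability in the big graph implies reachability of the abstract problem -/
theorem alt_of_reach (P : Par I L K M r w N) {p p' : Bool → I → L}
    {σ σ' : Fin w → Option (Fin r)}
    (h : Relation.ReflTransGen (fun A B : Vx I L K M r w → Lb r =>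
      Bal (gr C M r w) N A ∧ Bal (gr C M r w) N B ∧ MoveX A B) (lab p σ) (lab p' σ')) :
    Relation.ReflTransGen C.Alt p p' := by
  have hN1 : 2 ≤ N := by
    have h1 := P.hM
    have h2 := P.hN
    nlinarith [Nat.zero_le (Fintype.card I)]
  have key : ∀ B : Vx I L K M r w → Lb r, Relation.ReflTransGen (fun A B : Vx I L K M r w → Lb r =>
      Bal (gr C M r w) N A ∧ Bal (gr C M r w) N B ∧ MoveX A B) (lab p σ) B →
      ∃ (ρ : Equiv.Perm (Lb r)) (p'' : Bool → I → L) (σ'' : Fin w → Option (Fin r)),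
        ρ ∘ lab p'' σ'' = B ∧ Relation.ReflTransGen C.Alt p p'' := by
    intro B hB
    induction hB with
    | refl => exact ⟨1, p, σ, rfl, .refl⟩
    | @tail b c _ hbc ih =>
      obtain ⟨hb, hc, hm⟩ := hbc
      obtain ⟨ρ, p₁, σ₁, rfl, h1⟩ := ih
      have hb' : Bal (gr C M r w) N (lab p₁ σ₁) := by
        have := hb.comp ρ.symm
        have e : (ρ.symm ∘ (ρ ∘ lab p₁ σ₁) : Vx I L K M r w → Lb r) = lab p₁ σ₁ := by
          funext v; simp
        rwa [e] at this
      obtain ⟨i, j, π, h3, h4⟩ := normalize hm.of_comp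
      obtain ⟨ρ', p₂, σ₂, h5, τ, h6⟩ := agree_good P hb' (hc.comp π) (B := π ∘ c) ⟨h3, h4⟩
      have hc2 : Bal (gr C M r w) N (lab p₂ σ₂) := by
        rw [← h5]; exact (hc.comp π).comp ρ'
      refine ⟨(π.trans ρ').symm, p₂, σ₂, ?_, h1.tail ⟨sat_of_bal hN1 hb', sat_of_bal hN1 hc2, τ, h6⟩⟩
      rw [← h5]
      funext v
      simp
  obtain ⟨ρ, p'', σ'', h1, h2⟩ := key _ h
  have e : p'' = p' := by
    funext τ i
    have h3 : ρ (Sum.inl τ) = Sum.inl τ := by
      have := congrFun h1 (hb τ none)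
      simpa [lab] using this
    have h4 := congrFun h1 (lt τ i (p'' τ i))
    simp only [Function.comp, lab, if_true] at h4
    rw [h3] at h4
    split_ifs at h4 with h5
    exact h5.symm
  rwa [e] at h2

end Pool.Agent.Helper54.BR
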