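import Mathlib

/-!
Balanced recombination on 3-connected graphs: definitions used by the final statement.
-/

namespace Pool.Agent.Helper54.BR

/-- `A : V → Fin k` labels the vertices with `k` districts; it is a `(k,s)`-BCP of `G`. -/
def IsBCP {V : Type} [Fintype V] (G : SimpleGraph V) {k : ℕ} (s : ℕ) (A : V → Fin k) : Prop :=
  ∀ c : Fin k, (G.induce {v | A v = c}).Connected ∧
    |((Nat.card {v // A v = c} : ℕ) : ℚ) - (Fintype.card V : ℚ) / k| ≤ s

/-- `A` and `B` differ by a recombination move: for some `i`, `j` and some permutation `π` the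
districts `i`, `j` of `A` have the same union as the districts `π i`, `π j` of `B`, and all other
districts `c` of `A` are the districts `π c` of `B`. -/
def Move {V : Type} {k : ℕ} (A B : V → Fin k) : Prop :=
  ∃ (i j : Fin k) (π : Equiv.Perm (Fin k)),
    (∀ v, (A v = i ∨ A v = j) ↔ (B v = π i ∨ B v = π j)) ∧
    ∀ c, c ≠ i → c ≠ j → ∀ v, A v = c ↔ B v = π c

/-- There is a sequence of recombination moves through `(k,s)`-BCPs. -/
def Reach {V : Type} [Fintype V] (G : SimpleGraph V) {k : ℕ} (s : ℕ) (A B : V → Fin k) : Prop :=
  Relation.ReflTransGen (fun A B : V → Fin k => IsBCP G s A ∧ IsBCP G s B ∧ Move A B) A B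

/-- 3-connected: at least 4 vertices, and connected after removal of any at most 2 vertices. -/
def ThreeConnected {V : Type} [Fintype V] (G : SimpleGraph V) : Prop :=
  4 ≤ Fintype.card V ∧ ∀ R : Finset V, R.card ≤ 2 → (G.induce {v | v ∉ R}).Connected

/-- An instance of `BR(G,k,s)`: a graph on `{0,…,n-1}`, the slack and two labelled partitions. -/
structure Inst (k : ℕ) where
  n : ℕ
  G : SimpleGraph (Fin n)
  s : ℕ
  A : Fin n → Fin k
  B : Fin n → Fin k

open Classical in
/-- Binary code of an instance: `n` and `s` in unary, the adjacency matrix, the two labelings. -/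
noncomputable def Inst.code {k : ℕ} (I : Inst k) : List Bool :=
  List.replicate I.n true ++ [false] ++ List.replicate I.s true ++ [false] ++
  ((List.finRange I.n).flatMap fun u => (List.finRange I.n).map fun v => decide (I.G.Adj u v)) ++
  ((List.finRange I.n).flatMap fun u => (List.finRange k).map fun c => decide (I.A u = c)) ++
  ((List.finRange I.n).flatMap fun u => (List.finRange k).map fun c => decide (I.B u = c))

/-- Deterministic Turing machine with one tape that is infinite to the right; the symbols
`0`, `1` are the input bits and `2` is the blank. -/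
structure TM where
  nq : ℕ
  ng : ℕ
  δ : Fin (nq + 3) → Fin (ng + 3) → Fin (nq + 3) × Fin (ng + 3) × Bool

/-- Configuration: state, head position, tape. State `0` is initial, `1` accepting (halting),
`2` rejecting (halting). -/
structure TM.Cfg (M : TM) where
  q : Fin (M.nq + 3)
  h : ℕ
  t : ℕ → Fin (M.ng + 3)

/-- One step (halting configurations stay; `true` is a move to the right, `false` a move to the
left, where the head stays on cell `0` if it is there). -/
def TM.step (M : TM) (c : M.Cfg) : M.Cfg :=
  if c.q = 1 ∨ c.q = 2 then c else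
    ⟨(M.δ c.q (c.t c.h)).1,
      if (M.δ c.q (c.t c.h)).2.2 then c.h + 1 else c.h - 1,
      Function.update c.t c.h (M.δ c.q (c.t c.h)).2.1⟩

/-- The initial configuration on input `x`. -/
def TM.init (M : TM) (x : List Bool) : M.Cfg :=
  ⟨0, 0, fun n => match x[n]? with
    | some true => 1
    | some false => 0
    | none => 2⟩

/-- `L` is decided in polynomial space: the machine halts on every input, visits only the first
`p(|x|)` cells, and accepts exactly the words of `L`. -/
def InPSPACE (L : Set (List Bool)) : Prop :=
  ∃ (M : TM) (p : Polynomial ℕ), ∀ x : List Bool,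
    (∀ n, (M.step^[n] (M.init x)).h < p.eval x.length) ∧
    ∃ n, (x ∈ L ∧ (M.step^[n] (M.init x)).q = 1) ∨ (x ∉ L ∧ (M.step^[n] (M.init x)).q = 2)

end Pool.Agent.Helper54.BR
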