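import Pool.Agent.Helper54.BR.Defs

namespace Pool.Agent.Helper54.BR

/-- Abstract constraint problem: two sides, positions `I`, letters `L`, clauses `K`. -/
structure CSP (I L K : Type) where
  inc : K → Bool → I → L → Prop
  act : K → Prop

variable {I L K : Type}

def CSP.Sat (C : CSP I L K) (p : Bool → I → L) : Prop :=
  ∀ κ, C.act κ → ∃ τ i b, C.inc κ τ i b ∧ p τ i ≠ b

def CSP.Alt (C : CSP I L K) (p p' : Bool → I → L) : Prop :=
  C.Sat p ∧ C.Sat p' ∧ ∃ τ, p' τ = p τ

/-- every clause has at least three pairs -/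
def CSP.Three (C : CSP I L K) : Prop :=
  ∀ κ, ∃ z₁ z₂ z₃ : Bool × I × L, z₁ ≠ z₂ ∧ z₁ ≠ z₃ ∧ z₂ ≠ z₃ ∧
    ∀ z, (z = z₁ ∨ z = z₂ ∨ z = z₃) → C.inc κ z.1 z.2.1 z.2.2

/-- Vertices. -/
inductive Vx (I L K : Type) (M r w : ℕ) : Type
  | lt (τ : Bool) (i : I) (b : L)
  | cl (κ : K)
  | hb (τ : Bool) (i : Option I)
  | ha
  | co (j : Fin r)
  | pd (τ : Bool) (i : Option I) (l : Fin M)
  | pa (l : Fin w)

variable {M r w : ℕ}

abbrev SumV (I L K : Type) (M r w : ℕ) : Type :=
  (Bool × I × L) ⊕ K ⊕ (Bool × Option I) ⊕ Unit ⊕ Fin r ⊕ (Bool × Option I × Fin M) ⊕ Fin w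

/-- Vertices as a sum type. -/
def Vx.equiv : Vx I L K M r w ≃ SumV I L K M r w where
  toFun
    | .lt τ i b => .inl (τ, i, b)
    | .cl κ => .inr (.inl κ)
    | .hb τ i => .inr (.inr (.inl (τ, i)))
    | .ha => .inr (.inr (.inr (.inl ())))
    | .co j => .inr (.inr (.inr (.inr (.inl j))))
    | .pd τ i l => .inr (.inr (.inr (.inr (.inr (.inl (τ, i, l))))))
    | .pa l => .inr (.inr (.inr (.inr (.inr (.inr l)))))
  invFun
    | .inl (τ, i, b) => .lt τ i b
    | .inr (.inl κ) => .cl κ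
    | .inr (.inr (.inl (τ, i))) => .hb τ i
    | .inr (.inr (.inr (.inl ()))) => .ha
    | .inr (.inr (.inr (.inr (.inl j)))) => .co j
    | .inr (.inr (.inr (.inr (.inr (.inl (τ, i, l)))))) => .pd τ i l
    | .inr (.inr (.inr (.inr (.inr (.inr l))))) => .pa l
  left_inv x := by cases x <;> rfl
  right_inv x := by rcases x with x | x | x | x | x | x | x <;> rfl

noncomputable instance [Fintype I] [Fintype L] [Fintype K] : Fintype (Vx I L K M r w) :=
  Fintype.ofEquiv _ Vx.equiv.symm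

instance [Finite I] [Finite L] [Finite K] : Finite (Vx I L K M r w) :=
  Finite.of_equiv _ Vx.equiv.symm

theorem card_Vx [Fintype I] [Fintype L] [Fintype K] :
    Fintype.card (Vx I L K M r w) = 2 * Fintype.card I * Fintype.card L + Fintype.card K +
      2 * (Fintype.card I + 1) + 1 + r + 2 * (Fintype.card I + 1) * M + w := by
  rw [Fintype.card_congr Vx.equiv]
  simp only [Fintype.card_sum, Fintype.card_prod, Fintype.card_bool, Fintype.card_option,
    Fintype.card_unit, Fintype.card_fin]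
  ring

open Vx

/-- Directed edges. -/
def E (C : CSP I L K) : Vx I L K M r w → Vx I L K M r w → Prop
  | lt τ _ _, hb τ' none => τ = τ'
  | lt τ i _, hb τ' (some j) => τ = τ' ∧ i = j
  | lt _ _ _, ha => True
  | cl κ, lt τ i b => C.inc κ τ i b
  | cl κ, ha => ¬ C.act κ
  | pd τ i _, hb τ' j => τ = τ' ∧ i = j
  | pd _ _ _, co _ => True
  | pa _, ha => True
  | pa _, co _ => True
  | _, _ => False

/-- The graph. -/
def gr (C : CSP I L K) (M r w : ℕ) : SimpleGraph (Vx I L K M r w) where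
  Adj u v := E C u v ∨ E C v u
  symm := ⟨fun _ _ h => h.symm⟩
  loopless := ⟨fun u h => by rcases u with _ | _ | ⟨_, _ | _⟩ | _ | _ | _ | _ <;> simp [E] at h⟩

variable {C : CSP I L K}

theorem adj_iff {u v : Vx I L K M r w} : (gr C M r w).Adj u v ↔ E C u v ∨ E C v u := Iff.rfl

/-- A connected induced subgraph has an edge leaving any nonempty proper part. -/
theorem exit_edge {V : Type} {G : SimpleGraph V} {S : Set V} (h : (G.induce S).Connected)
    (T : V → Prop) {a b : V} (ha : a ∈ S) (hb : b ∈ S) (hTa : T a) (hTb : ¬ T b) :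
    ∃ u ∈ S, ∃ v ∈ S, T u ∧ ¬ T v ∧ G.Adj u v := by
  by_contra hcon
  push Not at hcon
  have key : ∀ (x y : S), (G.induce S).Reachable x y → T x → T y := by
    intro x y hxy
    obtain ⟨p⟩ := hxy
    induction p with
    | nil => exact id
    | @cons u v w huv p ih =>
      intro hu
      refine ih ?_
      by_contra hv
      exact hcon u u.2 v v.2 hu hv huv
  exact hTb (key ⟨a, ha⟩ ⟨b, hb⟩ (h.preconnected _ _) hTa)

end Pool.Agent.Helper54.BR
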