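import Pool.Agent.Helper54.BR.Code

namespace Pool.Agent.Helper54.BR

open Vx Tg

variable {M : TM} {r : ℕ} {Z : Num}

/-- constant lists of finite data -/
noncomputable def F0 (M : TM) : List (FD M) :=
  (Finset.univ : Finset (Bool × Al M)).toList.map fun f => ⟨t0, f.1, f.2, d3 M, d3 M⟩
noncomputable def F1 (M : TM) : List (FD M) :=
  (Finset.univ : Finset (W3 M × W3 M)).toList.map fun f => ⟨t1, false, dl M, f.1, f.2⟩
def F2 (M : TM) : List (FD M) := [false, true].map fun τ => ⟨t2, τ, dl M, d3 M, d3 M⟩
def F5 (M : TM) : List (FD M) := [false, true].map fun τ => ⟨t5, τ, dl M, d3 M, d3 M⟩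
def fd (M : TM) (g : Tg) : FD M := ⟨g, false, dl M, d3 M, d3 M⟩

/-- list of all vertex codes -/
noncomputable def vlc (M : TM) (r S Mp wA n1 : ℕ) : List (FD M × ℕ) :=
  ((F0 M).flatMap fun f => (List.range S).map fun i => (f, i)) ++
  ((F1 M).flatMap fun f => (List.range S).map fun i => (f, i)) ++
  ((F2 M).flatMap fun f => (List.range (S + 1)).map fun i => (f, i)) ++
  [(fd M t3, 0)] ++ ((List.range r).map fun j => (fd M t4, j)) ++
  ((F5 M).flatMap fun f => (List.range (S + 1)).flatMap fun i => List.replicate Mp (f, i)) ++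
  List.replicate wA (fd M t6, 0) ++
  ((List.range r).flatMap fun j => List.replicate n1 (fd M t6, j + 1))

/-- all elements of `Option (Fin S)` -/
def ofr (S : ℕ) : List (Option (Fin S)) := none :: (List.finRange S).map some

/-- list of all vertices -/
noncomputable def vl (M : TM) (r : ℕ) (Z : Num) : List (VX M r Z) :=
  ((Finset.univ : Finset (Bool × Al M)).toList.flatMap fun f =>
    (List.finRange Z.S).map fun i => lt f.1 i f.2) ++
  ((Finset.univ : Finset (W3 M × W3 M)).toList.flatMap fun f =>
    (List.finRange Z.S).map fun i => cl (i, f.1, f.2)) ++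
  ([false, true].flatMap fun τ => (ofr Z.S).map fun i => hb τ i) ++
  [ha] ++ ((List.finRange r).map fun j => co j) ++
  ([false, true].flatMap fun τ => (ofr Z.S).flatMap fun i =>
    (List.finRange Z.Mp).map fun l => pd τ i l) ++
  ((List.finRange Z.wA).map fun a => pa (ew r Z (.inl a))) ++
  ((List.finRange r).flatMap fun j => (List.finRange Z.n1).map fun l => pa (ew r Z (.inr (j, l))))

theorem ofr_oc (S : ℕ) : (ofr S).map oc = List.range (S + 1) := by
  rw [ofr, List.map_cons, List.map_map, List.range_succ_eq_map]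
  congr 1
  rw [← List.map_coe_finRange_eq_range, List.map_map]
  rfl

theorem finRange_map {β : Type} (n : ℕ) (f : ℕ → β) :
    ((List.finRange n).map fun i => f i.val) = (List.range n).map f := by
  rw [← List.map_coe_finRange_eq_range, List.map_map]
  rfl

theorem vl_cd : (vl M r Z).map cd = vlc M r Z.S Z.Mp Z.wA Z.n1 := by
  have e1 : ∀ (τ : Bool), ((ofr Z.S).map fun i => (⟨t2, τ, dl M, d3 M, d3 M⟩, oc i)) =
      ((List.range (Z.S + 1)).map fun i => ((⟨t2, τ, dl M, d3 M, d3 M⟩ : FD M), i)) := by
    intro τ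
    rw [← ofr_oc, List.map_map]
    rfl
  have e2 : ∀ (τ : Bool), ((ofr Z.S).flatMap fun i => List.replicate Z.Mp ((⟨t5, τ, dl M, d3 M, d3 M⟩ : FD M), oc i)) =
      ((List.range (Z.S + 1)).flatMap fun i => List.replicate Z.Mp ((⟨t5, τ, dl M, d3 M, d3 M⟩ : FD M), i)) := by
    intro τ
    rw [← ofr_oc, List.flatMap_map]
  have e3 : ∀ {β : Type} (n : ℕ) (c : β), ((List.finRange n).map fun _ => c) = List.replicate n c := by
    intro β n c
    rw [List.map_const', List.length_finRange]
  have e0 : ∀ (n : ℕ) (g : FD M), ((List.finRange n).map fun x => (g, x.val)) =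
      (List.range n).map fun i => (g, i) := fun n g => finRange_map n fun i => (g, i)
  have e4 : ∀ (g : FD M), ((List.finRange r).flatMap fun a => List.replicate Z.n1 (g, a.val + 1)) =
      (List.range r).flatMap fun j => List.replicate Z.n1 (g, j + 1) := by
    intro g
    rw [← List.map_coe_finRange_eq_range, List.flatMap_map]
  have o1 : ∀ S : ℕ, oc (none : Option (Fin S)) = 0 := fun _ => rfl
  have o2 : ∀ (S : ℕ) (j : Fin S), oc (some j) = j.val + 1 := fun _ _ => rfl
  simp only [vl, vlc, List.map_append, List.map_flatMap, List.map_map, Function.comp_def, cd,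
    sig_inl, sig_inr, o1, o2, F0, F1, F2, F5, List.flatMap_map, fd, List.map_cons, List.map_nil,
    List.flatMap_cons, List.flatMap_nil, List.append_nil, e0, e1, e2, e3, e4]

theorem mem_ofr {S : ℕ} (i : Option (Fin S)) : i ∈ ofr S := by
  rcases i with _ | i
  · simp [ofr]
  · simp [ofr]

theorem mem_vl (v : VX M r Z) : v ∈ vl M r Z := by
  simp only [vl, List.mem_append, List.mem_flatMap, List.mem_map, List.mem_finRange, true_and,
    Finset.mem_toList, Finset.mem_univ, List.mem_cons, List.not_mem_nil, or_false]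
  rcases v with ⟨τ, i, b⟩ | κ | ⟨τ, i⟩ | _ | j | ⟨τ, i, l⟩ | l
  · iterate 7 left
    exact ⟨(τ, b), i, rfl⟩
  · iterate 6 left
    right
    exact ⟨κ.2, κ.1, rfl⟩
  · iterate 5 left
    right
    exact ⟨τ, by cases τ <;> simp, i, mem_ofr i, rfl⟩
  · iterate 4 left
    right
    rfl
  · iterate 3 left
    right
    exact ⟨j, rfl⟩
  · iterate 2 left
    right
    exact ⟨τ, by cases τ <;> simp, i, mem_ofr i, l, rfl⟩
  · obtain ⟨x, rfl⟩ := (ew r Z).surjective l
    rcases x with a | ⟨j, l⟩
    · left; right
      exact ⟨a, rfl⟩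
    · right
      exact ⟨j, l, rfl⟩

theorem length_ofr (S : ℕ) : (ofr S).length = S + 1 := by
  simp [ofr]

theorem length_vl : (vl M r Z).length = Fintype.card (VX M r Z) := by
  rw [card_Vx]
  simp only [vl, List.length_append, List.length_flatMap, List.length_map, List.length_finRange,
    List.map_const', List.sum_replicate, Finset.length_toList, Finset.card_univ, length_ofr,
    List.length_cons, List.length_nil, List.length_replicate, smul_eq_mul, Fintype.card_fin,
    Fintype.card_prod, Fintype.card_bool]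
  ring

/-- enumeration of the vertices -/
noncomputable def ev (M : TM) (r : ℕ) (Z : Num) : Fin (vl M r Z).length ≃ VX M r Z :=
  Equiv.ofBijective (vl M r Z).get (by
    rw [Fintype.bijective_iff_surjective_and_card]
    refine ⟨?_, by rw [Fintype.card_fin, length_vl]⟩
    intro v
    obtain ⟨i, hi⟩ := List.get_of_mem (mem_vl v)
    exact ⟨i, hi⟩)

theorem ev_apply (i : Fin (vl M r Z).length) : ev M r Z i = (vl M r Z).get i := rfl

abbrev Cs (M : TM) (Z : Num) := csp (aut M) (dl M) Z.S

/-- the instance for two pairs of words -/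
noncomputable def ins (M : TM) (r : ℕ) (Z : Num) (p p' : Bool → Fin Z.S → Al M) : Inst (r + 3) where
  n := (vl M r Z).length
  G := (gr (Cs M Z) Z.Mp r (Z.wA + r * Z.n1)).comap (ev M r Z)
  s := 0
  A := numE r ∘ lab p (sig r Z) ∘ ev M r Z
  B := numE r ∘ lab p' (sig r Z) ∘ ev M r Z

open Classical in
theorem ins_code (ℓ ℓ' : Bool → Option Bool → Al M) (x : List Bool) (p p' : Bool → Fin Z.S → Al M)
    (hp : ∀ τ i, p τ i = ℓ (decide (i.val = 0)) x[i.val]?)
    (hp' : ∀ τ i, p' τ i = ℓ' (decide (i.val = 0)) x[i.val]?) :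
    (ins M r Z p p').code =
      (vlc M r Z.S Z.Mp Z.wA Z.n1).map (fun _ => true) ++ [false] ++ [false] ++
      ((vlc M r Z.S Z.Mp Z.wA Z.n1).flatMap fun u => (vlc M r Z.S Z.Mp Z.wA Z.n1).map fun v =>
        decide (Ecd Z.S u v ∨ Ecd Z.S v u)) ++
      ((vlc M r Z.S Z.Mp Z.wA Z.n1).flatMap fun u => (List.range (r + 3)).map fun c =>
        decide (lbc ℓ x u = c)) ++
      ((vlc M r Z.S Z.Mp Z.wA Z.n1).flatMap fun u => (List.range (r + 3)).map fun c =>
        decide (lbc ℓ' x u = c)) := by
  have hfr : ∀ {β : Type} (f : VX M r Z → β), ((List.finRange (vl M r Z).length).map fun i =>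
      f (ev M r Z i)) = (vl M r Z).map f := by
    intro β f
    conv_rhs => rw [← List.map_get_finRange (vl M r Z), List.map_map]
    rfl
  have hfm : ∀ {β : Type} (f : VX M r Z → List β), ((List.finRange (vl M r Z).length).flatMap fun i =>
      f (ev M r Z i)) = (vl M r Z).flatMap f := by
    intro β f
    conv_rhs => rw [← List.map_get_finRange (vl M r Z), List.flatMap_map]
    rfl
  have h1 : List.replicate (vl M r Z).length true =
      (vlc M r Z.S Z.Mp Z.wA Z.n1).map (fun _ => true) := by
    rw [← vl_cd, List.map_map]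
    exact List.map_const'.symm
  have h2 : ((List.finRange (vl M r Z).length).flatMap fun u => (List.finRange (vl M r Z).length).map
      fun v => decide ((gr (Cs M Z) Z.Mp r (Z.wA + r * Z.n1)).Adj (ev M r Z u) (ev M r Z v))) =
      ((vlc M r Z.S Z.Mp Z.wA Z.n1).flatMap fun u => (vlc M r Z.S Z.Mp Z.wA Z.n1).map fun v =>
        decide (Ecd Z.S u v ∨ Ecd Z.S v u)) := by
    rw [hfm fun u => (List.finRange (vl M r Z).length).map
      fun v => decide ((gr (Cs M Z) Z.Mp r (Z.wA + r * Z.n1)).Adj u (ev M r Z v)), ← vl_cd,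
      List.flatMap_map]
    congr 1
    funext u
    rw [hfr fun v => decide ((gr (Cs M Z) Z.Mp r (Z.wA + r * Z.n1)).Adj u v), List.map_map]
    congr 1
    funext v
    simp only [Function.comp]
    congr 1
    rw [adj_iff, E_code, E_code]
  have h3 : ∀ (ℓ : Bool → Option Bool → Al M) (p : Bool → Fin Z.S → Al M),
      (∀ τ i, p τ i = ℓ (decide (i.val = 0)) x[i.val]?) →
      ((List.finRange (vl M r Z).length).flatMap fun u => (List.finRange (r + 3)).map
        fun c => decide (numE r (lab p (sig r Z) (ev M r Z u)) = c)) =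
      ((vlc M r Z.S Z.Mp Z.wA Z.n1).flatMap fun u => (List.range (r + 3)).map fun c =>
        decide (lbc ℓ x u = c)) := by
    intro ℓ p hp
    rw [hfm fun u => (List.finRange (r + 3)).map
        fun c => decide (numE r (lab p (sig r Z) u) = c), ← vl_cd, List.flatMap_map]
    congr 1
    funext u
    rw [← finRange_map]
    congr 1
    funext c
    congr 1
    rw [Fin.ext_iff, numE_val, lab_code ℓ x p hp]
  have key : (ins M r Z p p').code = List.replicate (vl M r Z).length true ++ [false] ++
      List.replicate 0 true ++ [false] ++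
      ((List.finRange (vl M r Z).length).flatMap fun u => (List.finRange (vl M r Z).length).map
      fun v => decide ((gr (Cs M Z) Z.Mp r (Z.wA + r * Z.n1)).Adj (ev M r Z u) (ev M r Z v))) ++
      ((List.finRange (vl M r Z).length).flatMap fun u => (List.finRange (r + 3)).map
        fun c => decide (numE r (lab p (sig r Z) (ev M r Z u)) = c)) ++
      ((List.finRange (vl M r Z).length).flatMap fun u => (List.finRange (r + 3)).map
        fun c => decide (numE r (lab p' (sig r Z) (ev M r Z u)) = c)) := rfl
  rw [key, h1, h2, h3 ℓ p hp, h3 ℓ' p' hp', List.replicate_zero, List.append_nil]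

end Pool.Agent.Helper54.BR
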