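import Pool.Agent.Helper54.BR.Conn

namespace Pool.Agent.Helper54.BR

variable {V V' X : Type} [Fintype V] [Fintype V'] {k N : ℕ}

theorem rtg_lift {α β : Type*} {r : α → α → Prop} {p : β → β → Prop} (f : α → β)
    (h : ∀ a b, r a b → p (f a) (f b)) {a b : α} (hab : Relation.ReflTransGen r a b) :
    Relation.ReflTransGen p (f a) (f b) := by
  induction hab with
  | refl => exact .refl
  | tail _ hbc ih => exact ih.tail (h _ _ hbc)

/-- induced subgraphs correspond under an isomorphism -/
theorem induce_conn {G : SimpleGraph V} (e : V' ≃ V) {S' : Set V'} {S : Set V}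
    (h : ∀ v, v ∈ S' ↔ e v ∈ S) :
    ((G.comap e).induce S').Connected ↔ (G.induce S).Connected := by
  apply SimpleGraph.Iso.connected_iff
  exact {
    toFun := fun v => ⟨e v, (h v).1 v.2⟩
    invFun := fun v => ⟨e.symm v, (h _).2 (by rw [Equiv.apply_symm_apply]; exact v.2)⟩
    left_inv := fun v => by ext; simp
    right_inv := fun v => by ext; simp
    map_rel_iff' := by intro a b; simp }

theorem three_iso {G : SimpleGraph V} (e : V' ≃ V) (h : ThreeConnected G) :
    ThreeConnected (G.comap e) := by
  obtain ⟨h1, h2⟩ := h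
  refine ⟨by rw [Fintype.card_congr e]; exact h1, ?_⟩
  intro R hR
  rw [induce_conn e (S := {v | v ∉ R.map e.toEmbedding})]
  · apply h2
    rw [Finset.card_map]; exact hR
  · intro v
    simp

theorem bcp_iff {G : SimpleGraph V} (e : V' ≃ V) (f : X ≃ Fin k) (hk : 0 < k)
    (hV : Fintype.card V = k * N) (A : V → X) :
    IsBCP (G.comap e) 0 (f ∘ A ∘ e) ↔ Bal G N A := by
  have hkey : ∀ x : X, (((G.comap e).induce {v | (f ∘ A ∘ e) v = f x}).Connected ↔
      (G.induce {v | A v = x}).Connected) ∧
      Nat.card {v // (f ∘ A ∘ e) v = f x} = Nat.card {v // A v = x} := by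
    intro x
    refine ⟨induce_conn e (by intro v; simp), ?_⟩
    apply Nat.card_congr
    exact e.subtypeEquiv (by intro v; simp)
  have hq : ((Fintype.card V' : ℕ) : ℚ) / k = N := by
    rw [Fintype.card_congr e, hV]
    push_cast
    have : (k : ℚ) ≠ 0 := by exact_mod_cast hk.ne'
    field_simp
  constructor
  · intro h x
    obtain ⟨h1, h2⟩ := h (f x)
    refine ⟨(hkey x).1.1 h1, ?_⟩
    rw [hq, (hkey x).2] at h2
    have h3 := abs_nonpos_iff.1 (show |((Nat.card {v // A v = x} : ℕ) : ℚ) - N| ≤ 0 by
      simpa using h2)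
    have h4 : ((Nat.card {v // A v = x} : ℕ) : ℚ) = N := by linarith
    exact_mod_cast h4
  · intro h c
    obtain ⟨x, rfl⟩ := f.surjective c
    obtain ⟨h1, h2⟩ := h x
    refine ⟨(hkey x).1.2 h1, ?_⟩
    rw [hq, (hkey x).2, h2]
    simp

theorem move_iff (e : V' ≃ V) (f : X ≃ Fin k) (A B : V → X) :
    Move (f ∘ A ∘ e) (f ∘ B ∘ e) ↔ MoveX A B := by
  constructor
  · rintro ⟨i, j, π, h1, h2⟩
    refine ⟨f.symm i, f.symm j, (f.trans π).trans f.symm, ?_, ?_⟩
    · intro v
      have := h1 (e.symm v)
      simp only [Function.comp, Equiv.apply_symm_apply] at this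
      simp only [Equiv.trans_apply, Equiv.apply_symm_apply, Equiv.eq_symm_apply]
      exact this
    · intro c hi hj v
      have := h2 (f c) (fun h => hi (by rw [← h, Equiv.symm_apply_apply]))
        (fun h => hj (by rw [← h, Equiv.symm_apply_apply])) (e.symm v)
      simp only [Function.comp, Equiv.apply_symm_apply, EmbeddingLike.apply_eq_iff_eq] at this
      simp only [Equiv.trans_apply, Equiv.eq_symm_apply]
      exact this
  · rintro ⟨i, j, π, h1, h2⟩
    refine ⟨f i, f j, (f.symm.trans π).trans f, ?_, ?_⟩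
    · intro v
      have := h1 (e v)
      simp only [Function.comp, Equiv.trans_apply, Equiv.symm_apply_apply,
        EmbeddingLike.apply_eq_iff_eq]
      exact this
    · intro c hi hj v
      have := h2 (f.symm c) (fun h => hi (by rw [← h, Equiv.apply_symm_apply]))
        (fun h => hj (by rw [← h, Equiv.apply_symm_apply])) (e v)
      simp only [Function.comp, Equiv.trans_apply, EmbeddingLike.apply_eq_iff_eq]
      rw [← this, Equiv.eq_symm_apply]

theorem reach_iff {G : SimpleGraph V} (e : V' ≃ V) (f : X ≃ Fin k) (hk : 0 < k)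
    (hV : Fintype.card V = k * N) (A B : V → X) :
    Reach (G.comap e) 0 (f ∘ A ∘ e) (f ∘ B ∘ e) ↔
      Relation.ReflTransGen (fun A B : V → X => Bal G N A ∧ Bal G N B ∧ MoveX A B) A B := by
  constructor
  · intro h
    have key : ∀ C : V' → Fin k, f.symm ∘ (f ∘ A ∘ e) ∘ e.symm = A ∧ f ∘ (f.symm ∘ C ∘ e.symm) ∘ e = C := by
      intro C
      constructor
      · funext v; simp
      · funext v; simp
    have h2 := rtg_lift (p := fun A B : V → X => Bal G N A ∧ Bal G N B ∧ MoveX A B)
      (fun C : V' → Fin k => f.symm ∘ C ∘ e.symm) (fun C D hCD => by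
        obtain ⟨h1, h2, h3⟩ := hCD
        rw [← (key C).2, bcp_iff e f hk hV] at h1
        rw [← (key D).2, bcp_iff e f hk hV] at h2
        rw [← (key C).2, ← (key D).2, move_iff e f] at h3
        exact ⟨h1, h2, h3⟩) h
    have hA : f.symm ∘ (f ∘ A ∘ e) ∘ e.symm = A := by funext v; simp
    have hB : f.symm ∘ (f ∘ B ∘ e) ∘ e.symm = B := by funext v; simp
    simp only [hA, hB] at h2
    exact h2
  · intro h
    exact rtg_lift (fun C : V → X => f ∘ C ∘ e) (fun C D hCD => by
      obtain ⟨h1, h2, h3⟩ := hCD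
      exact ⟨(bcp_iff e f hk hV C).2 h1, (bcp_iff e f hk hV D).2 h2, (move_iff e f C D).2 h3⟩) h

/-- numbering of the labels -/
def numL {r : ℕ} : Lb r → ℕ
  | .inl false => 0
  | .inl true => 1
  | .inr none => 2
  | .inr (some j) => j.val + 3

theorem numL_lt {r : ℕ} (x : Lb r) : numL x < r + 3 := by
  rcases x with _ | _ | j
  · rename_i b; cases b <;> simp [numL]
  · simp [numL]
  · simp only [numL]; have := j.2; omega

noncomputable def numE (r : ℕ) : Lb r ≃ Fin (r + 3) :=
  Equiv.ofBijective (fun x => ⟨numL x, numL_lt x⟩) (by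
    rw [Fintype.bijective_iff_injective_and_card]
    constructor
    · intro x y h
      have h' := congrArg Fin.val h
      simp only at h'
      rcases x with (_ | _) | _ | j <;> rcases y with (_ | _) | _ | j' <;> simp [numL] at h' <;>
        first | rfl | omega | skip
      have : j = j' := Fin.ext h'
      rw [this]
    · simp; omega)

theorem numE_val {r : ℕ} (x : Lb r) : (numE r x).val = numL x := rfl

end Pool.Agent.Helper54.BR
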