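import Pool.Agent.Helper54.BR.Core

namespace Pool.Agent.Helper54.BR

variable {I L K : Type} {M r w N : ℕ} {C : CSP I L K}

open Vx

theorem conn_center {V : Type} {G : SimpleGraph V} {S : Set V} {c : V} (hc : c ∈ S)
    (h : ∀ v (hv : v ∈ S), (G.induce S).Reachable ⟨v, hv⟩ ⟨c, hc⟩) : (G.induce S).Connected := by
  rw [SimpleGraph.connected_iff_exists_forall_reachable]
  exact ⟨⟨c, hc⟩, fun v => (h v v.2).symm⟩

theorem reach_step {V : Type} {G : SimpleGraph V} {S : Set V} {c u v : V} {hc : c ∈ S}
    {hu : u ∈ S} (h : (G.induce S).Reachable ⟨u, hu⟩ ⟨c, hc⟩) (hv : v ∈ S) (hadj : G.Adj v u) :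
    (G.induce S).Reachable ⟨v, hv⟩ ⟨c, hc⟩ := by
  have h1 : (G.induce S).Adj ⟨v, hv⟩ ⟨u, hu⟩ := hadj
  exact h1.reachable.trans h

theorem card_corner (p : Bool → I → L) (σ : Fin w → Option (Fin r)) (j : Fin r) :
    Nat.card {v : Vx I L K M r w // lab p σ v = Sum.inr (some j)} =
      Nat.card {l // σ l = some j} + 1 := by
  have e : {v : Vx I L K M r w // lab p σ v = Sum.inr (some j)} ≃ {l // σ l = some j} ⊕ Unit := by
    refine ⟨fun v => match v with
      | ⟨.lt τ i b, h⟩ => absurd h (by simp only [lab]; split_ifs <;> simp)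
      | ⟨.hb _ i, h⟩ => absurd h (by simp [lab])
      | ⟨.pd _ i l, h⟩ => absurd h (by simp [lab])
      | ⟨.cl _, h⟩ => absurd h (by simp [lab])
      | ⟨.ha, h⟩ => absurd h (by simp [lab])
      | ⟨.co _, _⟩ => .inr ()
      | ⟨.pa l, h⟩ => .inl ⟨l, by simpa [lab] using h⟩, fun x => match x with
      | .inl l => ⟨.pa l, by simp [lab, l.2]⟩
      | .inr () => ⟨.co j, by simp [lab]⟩, ?_, ?_⟩
    · rintro ⟨v, hv⟩
      rcases v with ⟨τ', i', b⟩ | κ | ⟨τ', i'⟩ | _ | j' | ⟨τ', i', l⟩ | l
      · simp only [lab] at hv; split_ifs at hv; all_goals simp at hv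
      · simp [lab] at hv
      · simp [lab] at hv
      · simp [lab] at hv
      · simp only [lab, Sum.inr.injEq, Option.some.injEq] at hv; subst hv; rfl
      · simp [lab] at hv
      · rfl
    · rintro (⟨l, hl⟩ | _) <;> rfl
  rw [Nat.card_congr e, Nat.card_sum, Nat.card_unique (α := Unit)]

theorem bal_of_sat [Fintype I] [Fintype L] [Fintype K] (P : Par I L K M r w N)
    {p : Bool → I → L} {σ : Fin w → Option (Fin r)} (hp : C.Sat p)
    (hσ : ∀ j, Nat.card {l // σ l = some j} + 1 = N) : Bal (gr C M r w) N (lab p σ) := by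
  have hside : ∀ τ : Bool, Nat.card {v : Vx I L K M r w // lab p σ v = Sum.inl τ} = N :=
    fun τ => by rw [card_side, P.hN]
  have hcorner : ∀ j, Nat.card {v : Vx I L K M r w // lab p σ v = Sum.inr (some j)} = N :=
    fun j => by rw [card_corner, hσ j]
  have hhub : Nat.card {v : Vx I L K M r w // lab p σ v = Sum.inr none} = N := by
    have h1 := P.hV
    rw [← Nat.card_eq_fintype_card,
      Nat.card_congr (Equiv.sigmaFiberEquiv (lab p σ : Vx I L K M r w → Lb r)).symm,
      Nat.card_sigma, Fintype.sum_sum_type, Fintype.sum_option, Fintype.sum_bool,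
      hside, hside, Finset.sum_congr rfl fun j _ => hcorner j] at h1
    simp only [Finset.sum_const, Finset.card_univ, Fintype.card_fin, smul_eq_mul] at h1
    nlinarith
  intro c
  rcases c with τ | _ | j
  · refine ⟨?_, hside τ⟩
    have hc : hb τ none ∈ {v : Vx I L K M r w | lab p σ v = Sum.inl τ} := by simp [lab]
    apply conn_center hc
    have hl : ∀ i b (hv : lt τ i b ∈ {v : Vx I L K M r w | lab p σ v = Sum.inl τ}),
        ((gr C M r w).induce _).Reachable ⟨lt τ i b, hv⟩ ⟨_, hc⟩ := by
      intro i b hv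
      exact reach_step (SimpleGraph.Reachable.refl _) hv (Or.inl (by simp [E]))
    have hh : ∀ i (hv : hb τ i ∈ {v : Vx I L K M r w | lab p σ v = Sum.inl τ}),
        ((gr C M r w).induce _).Reachable ⟨hb τ i, hv⟩ ⟨_, hc⟩ := by
      intro i hv
      rcases i with _ | i
      · exact SimpleGraph.Reachable.refl _
      · exact reach_step (hl i (p τ i) (by simp [lab])) hv (Or.inr (by simp [E]))
    intro v hv
    rcases v with ⟨τ', i', b⟩ | κ | ⟨τ', i'⟩ | _ | j' | ⟨τ', i', l⟩ | l
    · have h0 := hv
      simp only [lab, Set.mem_ofPred_eq] at h0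
      split_ifs at h0 with h
      simp only [Sum.inl.injEq] at h0
      subst h0
      exact hl _ _ hv
    · simp [lab] at hv
    · have h0 := hv
      simp only [lab, Set.mem_ofPred_eq, Sum.inl.injEq] at h0
      subst h0
      exact hh _ hv
    · simp [lab] at hv
    · simp [lab] at hv
    · have h0 := hv
      simp only [lab, Set.mem_ofPred_eq, Sum.inl.injEq] at h0
      subst h0
      exact reach_step (hh i' (by simp [lab])) hv (Or.inl (by simp [E]))
    · simp [lab] at hv
  · refine ⟨?_, hhub⟩
    have hc : ha ∈ {v : Vx I L K M r w | lab p σ v = Sum.inr none} := by simp [lab]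
    apply conn_center hc
    have hl : ∀ τ i b (hv : lt τ i b ∈ {v : Vx I L K M r w | lab p σ v = Sum.inr none}),
        ((gr C M r w).induce _).Reachable ⟨lt τ i b, hv⟩ ⟨_, hc⟩ := by
      intro τ i b hv
      exact reach_step (SimpleGraph.Reachable.refl _) hv (Or.inl (by simp [E]))
    intro v hv
    rcases v with ⟨τ', i', b⟩ | κ | ⟨τ', i'⟩ | _ | j' | ⟨τ', i', l⟩ | l
    · exact hl _ _ _ hv
    · by_cases hκ : C.act κ
      · obtain ⟨τ, i, b, h1, h2⟩ := hp κ hκ
        exact reach_step (hl τ i b (by simp [lab, h2])) hv (Or.inl (by simpa [E] using h1))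
      · exact reach_step (SimpleGraph.Reachable.refl _) hv (Or.inl (by simpa [E] using hκ))
    · simp [lab] at hv
    · exact SimpleGraph.Reachable.refl _
    · simp [lab] at hv
    · simp [lab] at hv
    · exact reach_step (SimpleGraph.Reachable.refl _) hv (Or.inl (by simp [E]))
  · refine ⟨?_, hcorner j⟩
    have hc : co j ∈ {v : Vx I L K M r w | lab p σ v = Sum.inr (some j)} := by simp [lab]
    apply conn_center hc
    intro v hv
    rcases v with ⟨τ', i', b⟩ | κ | ⟨τ', i'⟩ | _ | j' | ⟨τ', i', l⟩ | l
    · have h0 := hv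
      simp only [lab, Set.mem_ofPred_eq] at h0
      split_ifs at h0
      all_goals simp at h0
    · simp [lab] at hv
    · simp [lab] at hv
    · simp [lab] at hv
    · have h0 := hv
      simp only [lab, Set.mem_ofPred_eq, Sum.inr.injEq, Option.some.injEq] at h0
      subst h0
      exact SimpleGraph.Reachable.refl _
    · simp [lab] at hv
    · exact reach_step (SimpleGraph.Reachable.refl _) hv (Or.inl (by simp [E]))

/-- reachability of the abstract problem implies reachability in the big graph -/
theorem reach_of_alt [Fintype I] [Fintype L] [Fintype K] (P : Par I L K M r w N)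
    {p p' : Bool → I → L} {σ : Fin w → Option (Fin r)}
    (hσ : ∀ j, Nat.card {l // σ l = some j} + 1 = N) (h : Relation.ReflTransGen C.Alt p p') :
    Relation.ReflTransGen (fun A B : Vx I L K M r w → Lb r =>
      Bal (gr C M r w) N A ∧ Bal (gr C M r w) N B ∧ MoveX A B) (lab p σ) (lab p' σ) := by
  induction h with
  | refl => exact .refl
  | @tail b c _ hbc ih =>
    obtain ⟨hb, hc, τ, hτ⟩ := hbc
    refine ih.tail ⟨bal_of_sat P hb hσ, bal_of_sat P hc hσ, Sum.inl (!τ), Sum.inr none, 1, ?_, ?_⟩
    · intro v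
      rcases v with ⟨τ', i', b'⟩ | κ | ⟨τ', i'⟩ | _ | j' | ⟨τ', i', l⟩ | l
      · by_cases h : τ' = τ
        · subst h
          simp only [lab, Equiv.Perm.coe_one, id_eq]
          rw [hτ]
        · have h' : τ' = !τ := by cases τ <;> cases τ' <;> simp_all
          subst h'
          simp only [lab, Equiv.Perm.coe_one, id_eq]
          constructor <;> intro _ <;> split_ifs <;> simp
      all_goals simp [lab]
    · intro x h1 h2 v
      rcases v with ⟨τ', i', b'⟩ | κ | ⟨τ', i'⟩ | _ | j' | ⟨τ', i', l⟩ | l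
      · by_cases h : τ' = τ
        · subst h
          simp only [lab, Equiv.Perm.coe_one, id_eq]
          rw [hτ]
        · have h' : τ' = !τ := by cases τ <;> cases τ' <;> simp_all
          subst h'
          have h3 : ∀ q : Bool → I → L, lab (M := M) (K := K) q σ (lt (!τ) i' b') ≠ x := by
            intro q
            simp only [lab]
            split_ifs
            · exact h1.symm
            · exact h2.symm
          exact ⟨fun h => absurd h (h3 b), fun h => absurd h (h3 c)⟩
      all_goals simp [lab]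

end Pool.Agent.Helper54.BR
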