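import Pool.Agent.Helper54.BR.PTc

namespace Pool.Agent.Helper54.BR

open Pool.Agent.Helper54.Poly

/-- numerical data for `S` cells -/
noncomputable def ZS (M : TM) (S : ℕ) : Num where
  S := S
  Mp := 2 * S * Fintype.card (Al M) + S * Fintype.card (W3 M × W3 M) + 1
  wA := (S + 1) * (2 * S * Fintype.card (Al M) + S * Fintype.card (W3 M × W3 M) + 2) + S - 1 -
    (2 * S * Fintype.card (Al M) + S * Fintype.card (W3 M × W3 M)) + 2 * S
  n1 := (S + 1) * (2 * S * Fintype.card (Al M) + S * Fintype.card (W3 M × W3 M) + 2) + S - 1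

theorem par_ZS (M : TM) (r S : ℕ) :
    Par (Fin (ZS M S).S) (Al M) (Fin (ZS M S).S × W3 M × W3 M) (ZS M S).Mp r
      ((ZS M S).wA + r * (ZS M S).n1) ((ZS M S).n1 + 1) := by
  set lam := 2 * S * Fintype.card (Al M) + S * Fintype.card (W3 M × W3 M) with hlam
  have hN : (ZS M S).n1 + 1 = (S + 1) * (lam + 2) + S := by
    rw [show (ZS M S).n1 = (S + 1) * (lam + 2) + S - 1 from rfl]
    have : 1 ≤ (S + 1) * (lam + 2) := by nlinarith
    omega
  have hcK : Fintype.card (Fin (ZS M S).S × W3 M × W3 M) = S * Fintype.card (W3 M × W3 M) := by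
    rw [Fintype.card_prod, Fintype.card_fin]; rfl
  have hMp : (ZS M S).Mp = lam + 1 := rfl
  have hge : lam + 2 ≤ (S + 1) * (lam + 2) := by nlinarith
  have hwA : (ZS M S).wA + lam + 1 = (S + 1) * (lam + 2) + S + 2 * S := by
    have : (ZS M S).wA = (S + 1) * (lam + 2) + S - 1 - lam + 2 * S := rfl
    rw [this]
    omega
  refine ⟨?_, ?_, ?_⟩
  · rw [hcK, Fintype.card_fin, hMp]
    exact Nat.lt_succ_self _
  · rw [hN, Fintype.card_fin, hMp]; rfl
  · rw [card_Vx, hcK, hN, hMp, Fintype.card_fin]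
    have h1 : (ZS M S).S = S := rfl
    have h2 : (ZS M S).n1 + 1 = (S + 1) * (lam + 2) + S := hN
    rw [h1]
    have h3 : r * (ZS M S).n1 + r = r * ((S + 1) * (lam + 2) + S) := by
      rw [← h2]; ring
    have h4 : 2 * (S + 1) * (lam + 1) + 2 * (S + 1) = 2 * ((S + 1) * (lam + 2)) := by ring
    have h5 : (r + 3) * ((S + 1) * (lam + 2) + S) = r * ((S + 1) * (lam + 2) + S) +
      3 * ((S + 1) * (lam + 2)) + 3 * S := by ring
    omega

/-- the instance for the machine on `S` cells -/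
theorem ins_spec (M : TM) (r S : ℕ) (hr : 2 ≤ r) (hS : 2 ≤ S)
    (c₀ cf : Conf (MQ M) (Fin (M.ng + 3)) S) (hf : (aut M).step cf = none) :
    ThreeConnected (ins M r (ZS M S) (pp c₀ c₀) (pp cf cf)).G ∧
    IsBCP (ins M r (ZS M S) (pp c₀ c₀) (pp cf cf)).G 0 (ins M r (ZS M S) (pp c₀ c₀) (pp cf cf)).A ∧
    IsBCP (ins M r (ZS M S) (pp c₀ c₀) (pp cf cf)).G 0 (ins M r (ZS M S) (pp c₀ c₀) (pp cf cf)).B ∧
    (Reach (ins M r (ZS M S) (pp c₀ c₀) (pp cf cf)).G 0
        (ins M r (ZS M S) (pp c₀ c₀) (pp cf cf)).A (ins M r (ZS M S) (pp c₀ c₀) (pp cf cf)).B ↔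
      Relation.ReflTransGen (fun a b => (aut M).step a = some b) c₀ cf) := by
  have hd : (dl M).2 = none := rfl
  have P := par_ZS M r S
  have hS' : 2 ≤ (ZS M S).S := hS
  have s0 : (Cs M (ZS M S)).Sat (pp c₀ c₀) := sat_csp.2 fun i => loc_self hd c₀ i
  have s1 : (Cs M (ZS M S)).Sat (pp cf cf) := sat_csp.2 fun i => loc_self hd cf i
  have hσ : ∀ j, Nat.card {l // sig r (ZS M S) l = some j} + 1 = (ZS M S).n1 + 1 :=
    fun j => by rw [card_sig]
  have b0 := bal_of_sat P s0 hσ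
  have b1 := bal_of_sat P s1 hσ
  have hV := P.hV
  have hk : 0 < r + 3 := by omega
  have : Nonempty (Fin (ZS M S).S) := ⟨⟨0, by omega⟩⟩
  have : Nonempty (Al M) := ⟨dl M⟩
  have ha : 1 ≤ Fintype.card (Al M) := Fintype.card_pos
  have hMp : 3 ≤ (ZS M S).Mp := by
    simp only [ZS]
    nlinarith
  have hn1 : 3 ≤ (ZS M S).n1 := by
    have h1 := P.hN
    rw [Fintype.card_fin] at h1
    nlinarith
  have hw : 3 ≤ (ZS M S).wA + r * (ZS M S).n1 := by nlinarith
  refine ⟨three_iso (ev M r (ZS M S)) (three_conn (three_csp hS') hr hMp hw),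
    (bcp_iff (ev M r (ZS M S)) (numE r) hk hV _).2 b0,
    (bcp_iff (ev M r (ZS M S)) (numE r) hk hV _).2 b1, ?_⟩
  rw [← alt_iff hd hf]
  refine (reach_iff (ev M r (ZS M S)) (numE r) hk hV _ _).trans ?_
  exact ⟨alt_of_reach P, reach_of_alt P hσ⟩

theorem main (k : ℕ) (hk : 5 ≤ k) (L : Set (List Bool)) (hL : InPSPACE L) :
    ∃ f : List Bool → Inst k,
      Nonempty (Turing.TM2ComputableInPolyTime (fun l : List Bool => l) (fun l => l)
        (fun x => (f x).code)) ∧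
      ∀ x, (f x).s = 0 ∧ ThreeConnected (f x).G ∧ IsBCP (f x).G (f x).s (f x).A ∧
        IsBCP (f x).G (f x).s (f x).B ∧
        (x ∈ L ↔ Reach (f x).G (f x).s (f x).A (f x).B) := by
  obtain ⟨r, rfl⟩ : ∃ r, k = r + 3 := ⟨k - 3, by omega⟩
  have hr : 2 ≤ r := by omega
  obtain ⟨M, p, hM⟩ := hL
  set Sx : List Bool → ℕ := fun x => p.eval x.length + x.length + 2 with hSx
  have hh : ∀ x n, (M.step^[n] (M.init x)).h < Sx x := fun x n =>
    lt_of_lt_of_le ((hM x).1 n) (by simp only [hSx]; omega)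
  set c₀ : ∀ x, Conf (MQ M) (Fin (M.ng + 3)) (Sx x) := fun x => toConf (M.init x) (hh x 0) with hc₀
  set cf : ∀ x, Conf (MQ M) (Fin (M.ng + 3)) (Sx x) := fun x =>
    finC M (Sx x) (lt_of_le_of_lt (Nat.zero_le _) (hh x 0)) with hcf
  refine ⟨fun x => ins M r (ZS M (Sx x)) (pp (c₀ x) (c₀ x)) (pp (cf x) (cf x)), ?_, ?_⟩
  · have hp : ∀ x (τ : Bool) (i : Fin (Sx x)), pp (c₀ x) (c₀ x) τ i =
        ltrA M (decide (i.val = 0)) x[i.val]? := by
      intro x τ i
      have h1 : pp (c₀ x) (c₀ x) τ i = (c₀ x).word i := by cases τ <;> rfl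
      rw [h1]
      simp only [hc₀, Conf.word, toConf, TM.init, ltrA, Fin.ext_iff, decide_eq_true_eq]
      rcases x[i.val]? with _ | (_ | _) <;> rfl
    have hp' : ∀ x (τ : Bool) (i : Fin (Sx x)), pp (cf x) (cf x) τ i =
        ltrB M (decide (i.val = 0)) x[i.val]? := by
      intro x τ i
      have h1 : pp (cf x) (cf x) τ i = (cf x).word i := by cases τ <;> rfl
      rw [h1]
      simp only [hcf, Conf.word, finC, ltrB, Fin.ext_iff, decide_eq_true_eq]
    have hPS : PT Sx := ((PT.evalP p (PT.length PT.id)).add (PT.length PT.id)).add (PT.const 2)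
    have hlam : PT (fun x => 2 * Sx x * Fintype.card (Al M) +
        Sx x * Fintype.card (W3 M × W3 M)) :=
      (((PT.const 2).mul hPS).mul (PT.const _)).add (hPS.mul (PT.const _))
    have hMp : PT (fun x => (ZS M (Sx x)).Mp) := hlam.add (PT.const 1)
    have hn1 : PT (fun x => (ZS M (Sx x)).n1) :=
      (((hPS.add (PT.const 1)).mul (hlam.add (PT.const 2))).add hPS).sub (PT.const 1)
    have hwA : PT (fun x => (ZS M (Sx x)).wA) := (hn1.sub hlam).add ((PT.const 2).mul hPS)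
    have hcode := PTcode M r (ltrA M) (ltrB M) (PT.id (α := List Bool)) hPS hMp hwA hn1
    refine polytime_list (fun l : List Bool => l) _ _ (PT.reverse hcode) ?_
    intro x
    rw [ins_code (ltrA M) (ltrB M) x _ _ (hp x) (hp' x)]
    rfl
  · intro x
    have h1 := ins_spec M r (Sx x) hr (by simp only [hSx]; omega) (c₀ x) (cf x) (finC_step _)
    refine ⟨rfl, h1.1, h1.2.1, h1.2.2.1, ?_⟩
    exact (mach_iff (hh x) (hM x).2).trans h1.2.2.2.symm

end Pool.Agent.Helper54.BR
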