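import Pool.Agent.Helper54.BR.Graph

namespace Pool.Agent.Helper54.BR

variable {I L K : Type} {M r w : ℕ} {C : CSP I L K}

/-- Labels: the two side districts, the district of `a` (`inr none`) and those of the corners. -/
abbrev Lb (r : ℕ) : Type := Bool ⊕ Option (Fin r)

/-- balanced connected labeling, all districts of size `N` -/
def Bal {V X : Type} (G : SimpleGraph V) (N : ℕ) (A : V → X) : Prop :=
  ∀ c : X, (G.induce {v | A v = c}).Connected ∧ Nat.card {v // A v = c} = N

def MoveX {V X : Type} (A B : V → X) : Prop :=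
  ∃ (i j : X) (π : Equiv.Perm X), (∀ v, (A v = i ∨ A v = j) ↔ (B v = π i ∨ B v = π j)) ∧
    ∀ c, c ≠ i → c ≠ j → ∀ v, A v = c ↔ B v = π c

open Classical in
/-- The standard state. -/
noncomputable def lab (p : Bool → I → L) (σ : Fin w → Option (Fin r)) : Vx I L K M r w → Lb r
  | .lt τ i b => if p τ i = b then .inl τ else .inr none
  | .cl _ => .inr none
  | .hb τ _ => .inl τ
  | .ha => .inr none
  | .co j => .inr (some j)
  | .pd τ _ _ => .inl τ
  | .pa l => .inr (σ l)

/-- two sets of the same finite cardinality, one contained in the other -/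
theorem eq_of_card {V : Type} [Finite V] {P Q : V → Prop} (h : ∀ v, P v → Q v)
    (hc : Nat.card {v // Q v} ≤ Nat.card {v // P v}) : ∀ v, P v ↔ Q v := by
  have h1 : {v | P v} ⊆ {v | Q v} := h
  have h2 : {v | P v} = {v | Q v} := Set.eq_of_subset_of_ncard_le h1 (by
    rw [← Nat.card_coe_set_eq, ← Nat.card_coe_set_eq]; exact hc) (Set.toFinite _)
  intro v
  exact Set.ext_iff.1 h2 v

variable [Finite I] [Finite L] [Finite K]

/-- The merged move, brought to identity permutation: outside `{i,j}` nothing changes. -/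
theorem normalize {V X : Type} [DecidableEq X] {A B : V → X} (h : MoveX A B) :
    ∃ (i j : X) (π : Equiv.Perm X), (∀ v, (A v = i ∨ A v = j) ↔ (π (B v) = i ∨ π (B v) = j)) ∧
      ∀ v, A v ≠ i → A v ≠ j → π (B v) = A v := by
  obtain ⟨i, j, π, h1, h2⟩ := h
  refine ⟨i, j, π.symm, ?_, ?_⟩
  · intro v
    rw [h1 v, Equiv.symm_apply_eq, Equiv.symm_apply_eq]
  · intro v hi hj
    rw [Equiv.symm_apply_eq]
    exact (h2 _ hi hj v).1 rfl

theorem Bal.comp {V X : Type} {G : SimpleGraph V} {N : ℕ} {A : V → X} (h : Bal G N A)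
    (π : Equiv.Perm X) : Bal G N (π ∘ A) := by
  intro c
  have e : ∀ v, (π ∘ A) v = c ↔ A v = π.symm c := by
    intro v
    rw [Function.comp, Equiv.eq_symm_apply]
  have e' : {v | (π ∘ A) v = c} = {v | A v = π.symm c} := by
    ext v; exact e v
  rw [e']
  refine ⟨(h _).1, ?_⟩
  have := (h (π.symm c)).2
  rw [← this]
  exact Nat.card_congr (Equiv.subtypeEquivRight e)

/-- every vertex of a district has a neighbour in it -/
theorem Bal.nbr {V X : Type} {G : SimpleGraph V} {N : ℕ} {A : V → X} (h : Bal G N A)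
    (hN : 2 ≤ N) (u : V) : ∃ v, A v = A u ∧ G.Adj u v := by
  obtain ⟨h1, h2⟩ := h (A u)
  have : ∃ v, A v = A u ∧ v ≠ u := by
    by_contra hcon
    push Not at hcon
    have : Subsingleton {v // A v = A u} := ⟨fun x y => Subtype.ext
      ((hcon x x.2).trans (hcon y y.2).symm)⟩
    have := Finite.card_le_one_iff_subsingleton.2 this
    omega
  obtain ⟨v, hv, hvu⟩ := this
  obtain ⟨x, hx, y, hy, hxu, hyu, hadj⟩ := exit_edge h1 (fun z => z = u) (a := u) (b := v) rfl hv
    rfl hvu
  subst hxu
  exact ⟨y, hy, hadj⟩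

end Pool.Agent.Helper54.BR
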