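import Pool.Agent.Helper54.BR.Inst
import Pool.Agent.Helper54.Rg.Lib2
import Pool.Agent.Helper54.Rg.IO2
import Pool.Agent.Helper54.Poly.Arith

namespace Pool.Agent.Helper54.BR

open Pool.Agent.Helper54.Poly Tg

variable {M : TM} {α β : Type}

noncomputable instance (M : TM) : TEnc (FD M) :=
  ⟨fun a => TEnc.enc ((Fintype.equivFin (FD M) a).val)⟩

theorem inj_nat : Function.Injective (TEnc.enc : ℕ → Tr) := by
  intro a b h
  have h1 := congrArg Tr.len h
  rw [enc_nat, enc_nat, enc_len, enc_len] at h1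
  simpa using h1

theorem inj_fd : Function.Injective (TEnc.enc : FD M → Tr) := by
  intro a b h
  have h1 := inj_nat (show TEnc.enc ((Fintype.equivFin (FD M) a).val) =
    TEnc.enc ((Fintype.equivFin (FD M) b).val) from h)
  exact (Fintype.equivFin (FD M)).injective (Fin.ext h1)

theorem inj_bool : Function.Injective (TEnc.enc : Bool → Tr) := by
  intro a b h
  cases a <;> cases b <;> first | rfl | exact absurd h (by simp [TEnc.enc])

theorem inj_prod [TEnc α] [TEnc β] (h1 : Function.Injective (TEnc.enc : α → Tr))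
    (h2 : Function.Injective (TEnc.enc : β → Tr)) :
    Function.Injective (TEnc.enc : α × β → Tr) := by
  rintro ⟨a, b⟩ ⟨a', b'⟩ h
  have h' : Tr.cons (TEnc.enc a) (TEnc.enc b) = Tr.cons (TEnc.enc a') (TEnc.enc b') := h
  simp only [Tr.cons.injEq] at h'
  rw [h1 h'.1, h2 h'.2]

theorem inj_opt : Function.Injective (TEnc.enc : Option Bool → Tr) := by
  intro a b h
  rcases a with _ | a <;> rcases b with _ | b
  · rfl
  · exact absurd h (by simp [TEnc.enc])
  · exact absurd h (by simp [TEnc.enc])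
  · have h' : Tr.cons (TEnc.enc a) Tr.nil = Tr.cons (TEnc.enc b) Tr.nil := h
    simp only [Tr.cons.injEq, and_true] at h'
    rw [inj_bool h']

abbrev B6 : Type := Bool × Bool × Bool × Bool × Bool × Bool

open Classical in
noncomputable def phi (z : FD M × FD M × B6) : Bool :=
  decide (Ec z.1 z.2.1 z.2.2.1 z.2.2.2.1 z.2.2.2.2.1 z.2.2.2.2.2.1 z.2.2.2.2.2.2.1 z.2.2.2.2.2.2.2)

theorem inj_B6 : Function.Injective (TEnc.enc : B6 → Tr) :=
  inj_prod inj_bool (inj_prod inj_bool (inj_prod inj_bool (inj_prod inj_bool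
    (inj_prod inj_bool inj_bool))))

theorem PTphi : PT (phi : FD M × FD M × B6 → Bool) :=
  PT.finite (inj_prod inj_fd (inj_prod inj_fd inj_B6)) _

variable [TEnc α]

theorem PTec {S : α → ℕ} {u v : α → FD M × ℕ} (hS : PT S) (hu : PT u) (hv : PT v) :
    PT (fun a => phi ((u a).1, (v a).1, decide ((u a).2 = 0), decide ((u a).2 + 1 = S a),
      decide ((v a).2 = 0), decide ((v a).2 + 1 = (u a).2), decide ((v a).2 = (u a).2),
      decide ((v a).2 = (u a).2 + 1))) :=
  PTphi.comp (hu.fst.pair (hv.fst.pair ((PT.eqN hu.snd (PT.const 0)).pair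
    ((PT.eqN hu.snd.succ hS).pair ((PT.eqN hv.snd (PT.const 0)).pair
      ((PT.eqN hv.snd.succ hu.snd).pair ((PT.eqN hv.snd hu.snd).pair
        (PT.eqN hv.snd hu.snd.succ))))))))

open Classical in
theorem PTadj {S : α → ℕ} {u v : α → FD M × ℕ} (hS : PT S) (hu : PT u) (hv : PT v) :
    PT (fun a => decide (Ecd (S a) (u a) (v a) ∨ Ecd (S a) (v a) (u a))) := by
  refine (PT.or (PTec hS hu hv) (PTec hS hv hu)).congr fun a => ?_
  rw [Bool.eq_iff_iff]
  simp only [Bool.or_eq_true, phi, decide_eq_true_eq, Ecd]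

theorem PTlbc (ℓ : Bool → Option Bool → Al M) {x : α → List Bool} {u : α → FD M × ℕ}
    (hx : PT x) (hu : PT u) : PT (fun a => lbc ℓ (x a) (u a)) := by
  have h1 : PT (fun z : FD M × Bool × Option Bool => lb0 ℓ z.1 z.2.1 z.2.2) :=
    PT.finite (inj_prod inj_fd (inj_prod inj_bool inj_opt)) _
  have h2 : PT (ladd : FD M → Bool) := PT.finite inj_fd _
  have h3 := h1.comp (hu.fst.pair ((PT.eqN hu.snd (PT.const 0)).pair
    (PT.head? (PT.drop hu.snd hx))))
  have h4 := PT.ite (h2.comp hu.fst) hu.snd (PT.const 0)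
  refine (PT.add h3 h4).congr fun a => ?_
  simp only [lbc, List.head?_drop]

theorem PTvlc (M : TM) (r : ℕ) {S Mp wA n1 : α → ℕ} (hS : PT S) (hM : PT Mp) (hw : PT wA)
    (hn : PT n1) : PT (fun a => vlc M r (S a) (Mp a) (wA a) (n1 a)) := by
  have hr : ∀ (F : List (FD M)) {n : α → ℕ}, PT n → PT (fun a => F.flatMap fun f =>
      (List.range (n a)).map fun i => (f, i)) := by
    intro F n hn
    have h1 : PT (fun z : (α × FD M) × ℕ => (z.1.2, z.2)) := PT.id.fst.snd.pair PT.id.snd
    have h2 : PT (fun z : α × FD M => (List.range (n z.1)).map fun i => (z.2, i)) :=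
      PT.map h1 (PT.range (hn.comp PT.id.fst))
    exact PT.flatMap h2 (PT.const F)
  have h3 : PT (fun _ : α => [(fd M t3, 0)]) := PT.const _
  have h4 : PT (fun _ : α => (List.range r).map fun j => (fd M t4, j)) := PT.const _
  have h5 : PT (fun a => (F5 M).flatMap fun f => (List.range (S a + 1)).flatMap fun i =>
      List.replicate (Mp a) (f, i)) := by
    have h1 : PT (fun z : (α × FD M) × ℕ => List.replicate (Mp z.1.1) (z.1.2, z.2)) :=
      PT.replicate (hM.comp PT.id.fst.fst) (PT.id.fst.snd.pair PT.id.snd)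
    have h2 : PT (fun z : α × FD M => (List.range (S z.1 + 1)).flatMap fun i =>
        List.replicate (Mp z.1) (z.2, i)) :=
      PT.flatMap h1 (PT.range (hS.comp PT.id.fst).succ)
    exact PT.flatMap h2 (PT.const (F5 M))
  have h6 : PT (fun a => List.replicate (wA a) (fd M t6, 0)) := PT.replicate hw (PT.const _)
  have h7 : PT (fun a => (List.range r).flatMap fun j => List.replicate (n1 a) (fd M t6, j + 1)) := by
    have h1 : PT (fun z : α × ℕ => List.replicate (n1 z.1) (fd M t6, z.2 + 1)) :=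
      PT.replicate (hn.comp PT.id.fst) ((PT.const _).pair PT.id.snd.succ)
    exact PT.flatMap h1 (PT.const (List.range r))
  exact ((((((hr (F0 M) hS).append (hr (F1 M) hS)).append (hr (F2 M) hS.succ)).append h3).append
    h4).append h5).append h6 |>.append h7

open Classical in
/-- the code of the instance is computable in polynomial time -/
theorem PTcode (M : TM) (r : ℕ) (ℓ ℓ' : Bool → Option Bool → Al M) {x : α → List Bool}
    {S Mp wA n1 : α → ℕ} (hx : PT x) (hS : PT S) (hM : PT Mp) (hw : PT wA) (hn : PT n1) :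
    PT (fun a =>
      (vlc M r (S a) (Mp a) (wA a) (n1 a)).map (fun _ => true) ++ [false] ++ [false] ++
      ((vlc M r (S a) (Mp a) (wA a) (n1 a)).flatMap fun u =>
        (vlc M r (S a) (Mp a) (wA a) (n1 a)).map fun v =>
        decide (Ecd (S a) u v ∨ Ecd (S a) v u)) ++
      ((vlc M r (S a) (Mp a) (wA a) (n1 a)).flatMap fun u => (List.range (r + 3)).map fun c =>
        decide (lbc ℓ (x a) u = c)) ++
      ((vlc M r (S a) (Mp a) (wA a) (n1 a)).flatMap fun u => (List.range (r + 3)).map fun c =>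
        decide (lbc ℓ' (x a) u = c))) := by
  have hv := PTvlc M r hS hM hw hn
  have h1 : PT (fun a => (vlc M r (S a) (Mp a) (wA a) (n1 a)).map (fun _ => true)) :=
    PT.map (f := fun _ : α × (FD M × ℕ) => true) (PT.const true) hv
  have h2 : PT (fun a => (vlc M r (S a) (Mp a) (wA a) (n1 a)).flatMap fun u =>
        (vlc M r (S a) (Mp a) (wA a) (n1 a)).map fun v =>
        decide (Ecd (S a) u v ∨ Ecd (S a) v u)) := by
    have h3 : PT (fun z : (α × (FD M × ℕ)) × (FD M × ℕ) =>
        decide (Ecd (S z.1.1) z.1.2 z.2 ∨ Ecd (S z.1.1) z.2 z.1.2)) :=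
      PTadj (hS.comp PT.id.fst.fst) PT.id.fst.snd PT.id.snd
    have h4 : PT (fun z : α × (FD M × ℕ) => (vlc M r (S z.1) (Mp z.1) (wA z.1) (n1 z.1)).map fun v =>
        decide (Ecd (S z.1) z.2 v ∨ Ecd (S z.1) v z.2)) :=
      PT.map h3 (hv.comp PT.id.fst)
    exact PT.flatMap h4 hv
  have h5 : ∀ ℓ : Bool → Option Bool → Al M, PT (fun a =>
      (vlc M r (S a) (Mp a) (wA a) (n1 a)).flatMap fun u => (List.range (r + 3)).map fun c =>
        decide (lbc ℓ (x a) u = c)) := by
    intro ℓ
    have h3 : PT (fun z : (α × (FD M × ℕ)) × ℕ => decide (lbc ℓ (x z.1.1) z.1.2 = z.2)) :=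
      PT.eqN (PTlbc ℓ (hx.comp PT.id.fst.fst) PT.id.fst.snd) PT.id.snd
    have h4 : PT (fun z : α × (FD M × ℕ) => (List.range (r + 3)).map fun c =>
        decide (lbc ℓ (x z.1) z.2 = c)) := PT.map h3 (PT.const (List.range (r + 3)))
    exact PT.flatMap h4 hv
  exact ((((h1.append (PT.const [false])).append (PT.const [false])).append h2).append
    (h5 ℓ)).append (h5 ℓ')

end Pool.Agent.Helper54.BR
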