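import Pool.Agent.Helper54.BR.Cases

namespace Pool.Agent.Helper54.BR

variable {I L K : Type} {M r w N : ℕ} {C : CSP I L K}

open Vx

/-- the vertices of a side district -/
def sideEquiv (p : Bool → I → L) (σ : Fin w → Option (Fin r)) (τ : Bool) :
    {v : Vx I L K M r w // lab p σ v = Sum.inl τ} ≃ Option I ⊕ (Option I × Fin M) ⊕ I where
  toFun v := match v with
    | ⟨.lt _ i _, _⟩ => .inr (.inr i)
    | ⟨.hb _ i, _⟩ => .inl i
    | ⟨.pd _ i l, _⟩ => .inr (.inl (i, l))
    | ⟨.cl _, h⟩ => absurd h (by simp [lab])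
    | ⟨.ha, h⟩ => absurd h (by simp [lab])
    | ⟨.co _, h⟩ => absurd h (by simp [lab])
    | ⟨.pa _, h⟩ => absurd h (by simp [lab])
  invFun x := match x with
    | .inl i => ⟨.hb τ i, by simp [lab]⟩
    | .inr (.inl (i, l)) => ⟨.pd τ i l, by simp [lab]⟩
    | .inr (.inr i) => ⟨.lt τ i (p τ i), by simp [lab]⟩
  left_inv := by
    rintro ⟨v, hv⟩
    rcases v with ⟨τ', i', b⟩ | κ | ⟨τ', i'⟩ | _ | j' | ⟨τ', i', l⟩ | l
    · simp only [lab] at hv
      split_ifs at hv with h
      simp only [Sum.inl.injEq] at hv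
      subst hv; subst h; rfl
    · simp [lab] at hv
    · simp only [lab, Sum.inl.injEq] at hv; subst hv; rfl
    · simp [lab] at hv
    · simp [lab] at hv
    · simp only [lab, Sum.inl.injEq] at hv; subst hv; rfl
    · simp [lab] at hv
  right_inv := by
    rintro (x | x | x) <;> rfl

theorem card_side [Fintype I] (p : Bool → I → L) (σ : Fin w → Option (Fin r)) (τ : Bool) :
    Nat.card {v : Vx I L K M r w // lab p σ v = Sum.inl τ} =
      (Fintype.card I + 1) * (M + 1) + Fintype.card I := by
  rw [Nat.card_congr (sideEquiv p σ τ), Nat.card_eq_fintype_card]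
  simp only [Fintype.card_sum, Fintype.card_prod, Fintype.card_option, Fintype.card_fin]
  ring

/-- a side district and the district of `a` -/
theorem case_side_hub [Fintype I] [Fintype L] [Fintype K]
    {p : Bool → I → L} {σ : Fin w → Option (Fin r)} {B : Vx I L K M r w → Lb r}
    (hN : N = (Fintype.card I + 1) * (M + 1) + Fintype.card I) (hN1 : 2 ≤ N)
    (hM : 2 * Fintype.card I * Fintype.card L + Fintype.card K < M)
    (hB : Bal (gr C M r w) N B) (τ : Bool)
    (hag : Agree (lab p σ) B (Sum.inl τ) (Sum.inr none))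
    (h0 : B ha = Sum.inr none) : ∃ p' : Bool → I → L, (∀ τ', τ' ≠ τ → p' τ' = p τ') ∧
      B = lab p' σ := by
  have hco : ∀ j, B (co j) = Sum.inr (some j) := by
    intro j
    rw [hag.2 (co j) (by simp [lab]) (by simp [lab])]; simp [lab]
  have hpa : ∀ l, B (pa l) ≠ Sum.inl τ := by
    intro l hl
    obtain ⟨u, hu, hadj⟩ := hB.nbr hN1 (pa l)
    rw [hl] at hu
    rw [adj_iff] at hadj
    rcases u with ⟨τ', i', b'⟩ | κ' | ⟨τ', _ | i'⟩ | _ | j' | ⟨τ', i', l'⟩ | l' <;>
      simp [E] at hadj
    · rw [h0] at hu; simp at hu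
    · rw [hco] at hu; simp at hu
  have hpdn : ∀ i l, B (pd τ i l) = B (hb τ i) := by
    intro i l
    obtain ⟨u, hu, hadj⟩ := hB.nbr hN1 (pd τ i l)
    rw [adj_iff] at hadj
    rcases u with ⟨τ', i', b'⟩ | κ' | ⟨τ', i'⟩ | _ | j' | ⟨τ', i', l'⟩ | l' <;>
      simp [E] at hadj
    · obtain ⟨rfl, rfl⟩ := hadj
      exact hu.symm
    · exfalso
      rw [hco] at hu
      rcases (hag.1 (pd τ i l)).1 (Or.inl (by simp [lab])) with h | h <;> rw [h] at hu <;>
        simp at hu
  have hside : ∀ i, B (hb τ i) = Sum.inl τ := by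
    intro i₀
    by_contra hcon
    have hsurj : ∀ v : {v // B v = Sum.inl τ}, ∃ z : Option I ⊕ ({i : Option I // i ≠ i₀} × Fin M) ⊕
        ((Bool × I × L) ⊕ K),
        (Sum.elim (fun i => hb τ i) (Sum.elim (fun z => pd τ z.1 z.2)
          (Sum.elim (fun z => lt z.1 z.2.1 z.2.2) (fun κ => cl κ))) z : Vx I L K M r w) = v := by
      rintro ⟨v, hv⟩
      rcases v with ⟨τ', i', b⟩ | κ | ⟨τ', i'⟩ | _ | j' | ⟨τ', i', l⟩ | l
      · exact ⟨.inr (.inr (.inl (τ', i', b))), rfl⟩
      · exact ⟨.inr (.inr (.inr κ)), rfl⟩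
      · have h1 := (hag.1 _).2 (Or.inl hv)
        simp only [lab, Sum.inl.injEq, reduceCtorEq, or_false] at h1
        subst h1
        exact ⟨.inl i', rfl⟩
      · rw [h0] at hv; simp at hv
      · rw [hco] at hv; simp at hv
      · have h1 := (hag.1 _).2 (Or.inl hv)
        simp only [lab, Sum.inl.injEq, reduceCtorEq, or_false] at h1
        subst h1
        refine ⟨.inr (.inl (⟨i', ?_⟩, l)), rfl⟩
        rintro rfl
        rw [hpdn] at hv
        exact hcon hv
      · exact absurd hv (hpa l)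
    choose g hg using hsurj
    have hle : Nat.card {v // B v = Sum.inl τ} ≤ Nat.card (Option I ⊕ ({i : Option I // i ≠ i₀} × Fin M) ⊕
        ((Bool × I × L) ⊕ K)) := by
      apply Nat.card_le_card_of_injective g
      intro u v huv
      apply Subtype.ext
      rw [← hg u, ← hg v, huv]
    classical
    rw [(hB _).2, Nat.card_eq_fintype_card] at hle
    simp only [Fintype.card_sum, Fintype.card_prod, Fintype.card_option, Fintype.card_fin,
      Fintype.card_bool, Fintype.card_subtype_compl, Fintype.card_subtype_eq] at hle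
    have e1 : Fintype.card I + 1 - 1 = Fintype.card I := by omega
    rw [e1] at hle
    nlinarith
  have hlt : ∀ i : I, ∃ b, B (lt τ i b) = Sum.inl τ := by
    intro i
    obtain ⟨u, hu, v, hv, hTu, hTv, hadj⟩ := exit_edge (hB (Sum.inl τ)).1
      (fun z => z = hb τ (some i) ∨ ∃ l, z = pd τ (some i) l) (a := hb τ (some i))
      (b := hb τ none) (hside _) (hside _) (Or.inl rfl) (by simp)
    rw [adj_iff] at hadj
    rcases hTu with rfl | ⟨l, rfl⟩
    · rcases v with ⟨τ', i', b⟩ | κ | ⟨τ', i'⟩ | _ | j' | ⟨τ', i', l⟩ | l <;> simp [E] at hadj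
      · obtain ⟨rfl, rfl⟩ := hadj
        exact ⟨b, hv⟩
      · obtain ⟨rfl, rfl⟩ := hadj
        exact absurd (Or.inr ⟨l, rfl⟩) hTv
    · rcases v with ⟨τ', i', b⟩ | κ | ⟨τ', i'⟩ | _ | j' | ⟨τ', i', l'⟩ | l' <;> simp [E] at hadj
      · obtain ⟨rfl, rfl⟩ := hadj
        exact absurd (Or.inl rfl) hTv
      · have : B (co j') = Sum.inl τ := hv
        rw [hco] at this; simp at this
  choose p₁ hp₁ using hlt
  refine ⟨Function.update p τ p₁, fun τ' h => Function.update_of_ne h _ _, ?_⟩
  set p' := Function.update p τ p₁ with hp'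
  have hag' : Agree (lab p' σ) B (Sum.inl τ) (Sum.inr none) := by
    have hsame : ∀ v : Vx I L K M r w, lab p' σ v = lab p σ v ∨
        ((lab p' σ v = Sum.inl τ ∨ lab p' σ v = Sum.inr none) ∧
          (lab p σ v = Sum.inl τ ∨ lab p σ v = Sum.inr none)) := by
      intro v
      rcases v with ⟨τ', i', b⟩ | κ | ⟨τ', i'⟩ | _ | j' | ⟨τ', i', l⟩ | l
      · by_cases h : τ' = τ
        · subst h
          right
          simp only [lab]
          constructor <;> split_ifs <;> simp
        · left
          simp only [lab]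
          rw [hp', Function.update_of_ne h]
      all_goals left; rfl
    constructor
    · intro v
      rw [← hag.1 v]
      rcases hsame v with h | ⟨h1, h2⟩
      · rw [h]
      · simp only [h1, h2]
    · intro v h1 h2
      rcases hsame v with h | ⟨h3, h4⟩
      · rw [h]; rw [h] at h1 h2; exact hag.2 v h1 h2
      · rcases h3 with h3 | h3
        · exact absurd h3 h1
        · exact absurd h3 h2
  apply hag'.eq
  intro v
  symm
  revert v
  apply eq_of_card
  · intro v hv
    rcases v with ⟨τ', i', b⟩ | κ | ⟨τ', i'⟩ | _ | j' | ⟨τ', i', l⟩ | l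
    · simp only [lab] at hv
      split_ifs at hv with h
      simp only [Sum.inl.injEq] at hv
      subst hv
      rw [← h, hp', Function.update_self]
      exact hp₁ i'
    · simp [lab] at hv
    · simp only [lab, Sum.inl.injEq] at hv; subst hv; exact hside i'
    · simp [lab] at hv
    · simp [lab] at hv
    · simp only [lab, Sum.inl.injEq] at hv; subst hv; rw [hpdn]; exact hside i'
    · simp [lab] at hv
  · rw [card_side, (hB _).2, hN]

end Pool.Agent.Helper54.BR
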