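import Pool.Agent.Helper54.BR.Graph

namespace Pool.Agent.Helper54.BR

/-- A deterministic automaton on a bounded tape that sees the ends of the tape. In the value,
`none` is a stay, `some true` a move to the right, `some false` a move to the left. -/
structure Aut (Q Γ : Type) where
  tr : Q → Γ → Bool → Bool → Option (Q × Γ × Option Bool)
  hl : ∀ q a isR q' b, tr q a true isR ≠ some (q', b, some false)
  hr : ∀ q a isL q' b, tr q a isL true ≠ some (q', b, some true)

structure Conf (Q Γ : Type) (S : ℕ) where
  q : Q
  h : Fin S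
  t : Fin S → Γ

variable {Q Γ : Type} {S : ℕ}

def isLft (i : Fin S) : Bool := decide (i.val = 0)
def isRgt (i : Fin S) : Bool := decide (i.val + 1 = S)

def mvTo (h : Fin S) : Option Bool → Fin S
  | none => h
  | some true => if h' : h.val + 1 < S then ⟨h.val + 1, h'⟩ else h
  | some false => ⟨h.val - 1, lt_of_le_of_lt (Nat.sub_le _ _) h.2⟩

def Aut.step (T : Aut Q Γ) (c : Conf Q Γ S) : Option (Conf Q Γ S) :=
  match T.tr c.q (c.t c.h) (isLft c.h) (isRgt c.h) with
  | none => none
  | some (q', b, m) => some ⟨q', mvTo c.h m, Function.update c.t c.h b⟩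

abbrev Lt (Q Γ : Type) : Type := Γ × Option Q
abbrev T3 (Q Γ : Type) : Type := Lt Q Γ × Lt Q Γ × Lt Q Γ

def Conf.word (c : Conf Q Γ S) (i : Fin S) : Lt Q Γ := (c.t i, if i = c.h then some c.q else none)

theorem word_inj {c c' : Conf Q Γ S} (h : c.word = c'.word) : c = c' := by
  obtain ⟨q, h1, t⟩ := c
  obtain ⟨q', h1', t'⟩ := c'
  have ht : t = t' := by
    funext i
    have := congrFun h i
    simpa [Conf.word] using congrArg Prod.fst this
  have hh := congrArg Prod.snd (congrFun h h1)
  simp only [Conf.word, if_true] at hh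
  split_ifs at hh with h2
  simp only [Option.some.injEq] at hh
  subst h2; subst hh; subst ht; rfl

/-- the window of position `i`; missing positions are replaced by `d` -/
def win (d : Lt Q Γ) (w : Fin S → Lt Q Γ) (i : Fin S) : T3 Q Γ :=
  (if i.val = 0 then d else w ⟨i.val - 1, lt_of_le_of_lt (Nat.sub_le _ _) i.2⟩, w i,
    if h : i.val + 1 < S then w ⟨i.val + 1, h⟩ else d)

def Aut.stepW (T : Aut Q Γ) (isL isR : Bool) (u : T3 Q Γ) : Option (T3 Q Γ) :=
  match u.2.1.2 with
  | none => none
  | some q => match T.tr q u.2.1.1 isL isR with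
    | none => none
    | some (q', b, none) => some (u.1, (b, some q'), u.2.2)
    | some (q', b, some true) => some (u.1, (b, none), (u.2.2.1, some q'))
    | some (q', b, some false) => some ((u.1.1, some q'), (b, none), u.2.2)

/-- number of heads in a window -/
def nh (u : T3 Q Γ) : ℕ := u.1.2.isSome.toNat + u.2.1.2.isSome.toNat + u.2.2.2.isSome.toNat

def Aut.Loc (T : Aut Q Γ) (isL isR : Bool) (u v : T3 Q Γ) : Prop :=
  nh u ≤ 1 ∧ nh v ≤ 1 ∧ (nh u = 0 → u.2.1 = v.2.1) ∧
    (u.2.1.2.isSome = true → (v = u ∨ T.stepW isL isR u = some v))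

theorem nh_word (d : Lt Q Γ) (hd : d.2 = none) (c : Conf Q Γ S) (i : Fin S) :
    nh (win d c.word i) = if (c.h.val + 1 = i.val ∨ c.h.val = i.val ∨ c.h.val = i.val + 1) then 1 else 0 := by
  have hi := i.2
  have hh := c.h.2
  simp only [nh, win, Conf.word]
  by_cases h0 : i.val = 0
  · by_cases h1 : i.val + 1 < S
    · simp only [h0, if_true, hd, Option.isSome_none, Bool.toNat_false]
      rw [dif_pos (by omega)]
      simp only [Fin.ext_iff, h0]
      split_ifs <;> simp <;> (try omega)
      rename_i h4
      simp only [Nat.add_eq_zero_iff, one_ne_zero, and_false, false_or] at h4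
      omega
    · simp only [h0, if_true, hd, Option.isSome_none, Bool.toNat_false]
      rw [dif_neg (by omega)]
      simp only [Fin.ext_iff, h0, hd]
      split_ifs <;> simp <;> omega
  · by_cases h1 : i.val + 1 < S
    · simp only [h0, if_false]
      rw [dif_pos (by omega)]
      simp only [Fin.ext_iff]
      split_ifs <;> simp <;> omega
    · simp only [h0, if_false]
      rw [dif_neg (by omega)]
      simp only [Fin.ext_iff, hd]
      split_ifs <;> simp <;> omega

end Pool.Agent.Helper54.BR
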