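import Pool.Agent.Helper54.BR.Word

namespace Pool.Agent.Helper54.BR

variable {Q Γ : Type} {S : ℕ} {T : Aut Q Γ} {d : Lt Q Γ}

theorem nh_le (hd : d.2 = none) (c : Conf Q Γ S) (i : Fin S) : nh (win d c.word i) ≤ 1 := by
  rw [nh_word d hd]; split_ifs <;> omega

theorem loc_self (hd : d.2 = none) (c : Conf Q Γ S) (i : Fin S) :
    T.Loc (isLft i) (isRgt i) (win d c.word i) (win d c.word i) :=
  ⟨nh_le hd c i, nh_le hd c i, fun _ => rfl, fun _ => Or.inl rfl⟩

theorem mvTo_val (h : Fin S) (m : Option Bool) (i : Fin S)
    (h1 : ¬ (h.val + 1 = i.val ∨ h.val = i.val ∨ h.val = i.val + 1)) : i ≠ mvTo h m := by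
  intro e
  have e' := congrArg Fin.val e
  rcases m with _ | _ | _
  · simp only [mvTo] at e'; omega
  · simp only [mvTo] at e'; omega
  · simp only [mvTo] at e'
    split_ifs at e' <;> (try simp only at e') <;> omega

/-- the window of a configuration at its head after one step -/
theorem stepW_head {c : Conf Q Γ S} {q' : Q} {b : Γ} {m : Option Bool}
    (h : T.tr c.q (c.t c.h) (isLft c.h) (isRgt c.h) = some (q', b, m)) :
    T.stepW (isLft c.h) (isRgt c.h) (win d c.word c.h) =
      some (win d (Conf.word ⟨q', mvTo c.h m, Function.update c.t c.h b⟩) c.h) := by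
  have hh := c.h.2
  have h1 : (win d c.word c.h).2.1 = (c.t c.h, some c.q) := by simp [win, Conf.word]
  have key : ∀ x : Fin S, x ≠ c.h → Function.update c.t c.h b x = c.t x :=
    fun x hx => Function.update_of_ne hx _ _
  unfold Aut.stepW
  rw [h1]
  simp only [h]
  rcases m with _ | _ | _
  · -- stay
    simp only [win, Conf.word, mvTo, Option.some.injEq, Prod.mk.injEq]
    refine ⟨?_, ⟨?_, ?_⟩, ?_⟩
    · by_cases h0 : c.h.val = 0
      · simp [h0]
      · rw [if_neg h0, if_neg h0]
        have hne : (⟨c.h.val - 1, lt_of_le_of_lt (Nat.sub_le _ _) c.h.2⟩ : Fin S) ≠ c.h := by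
          intro e; have := congrArg Fin.val e; simp only at this; omega
        rw [key _ hne, if_neg hne, if_neg hne]
    · simp
    · simp
    · by_cases h0 : c.h.val + 1 < S
      · rw [dif_pos h0, dif_pos h0]
        have hne : (⟨c.h.val + 1, h0⟩ : Fin S) ≠ c.h := by
          intro e; have := congrArg Fin.val e; simp only at this; omega
        rw [key _ hne, if_neg hne, if_neg hne]
      · rw [dif_neg h0, dif_neg h0]
  · -- left
    have hL : c.h.val ≠ 0 := by
      intro h0
      have : isLft c.h = true := by simp [isLft, h0]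
      rw [this] at h
      exact T.hl _ _ _ _ _ h
    simp only [win, Conf.word, mvTo, Option.some.injEq, Prod.mk.injEq]
    have hne : (⟨c.h.val - 1, lt_of_le_of_lt (Nat.sub_le _ _) c.h.2⟩ : Fin S) ≠ c.h := by
      intro e; have := congrArg Fin.val e; simp only at this; omega
    refine ⟨?_, ⟨?_, ?_⟩, ?_⟩
    · rw [if_neg hL, if_neg hL, key _ hne]
      simp
    · simp
    · rw [if_neg (Ne.symm hne)]
    · by_cases h0 : c.h.val + 1 < S
      · rw [dif_pos h0, dif_pos h0]
        have hne2 : (⟨c.h.val + 1, h0⟩ : Fin S) ≠ c.h := by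
          intro e; have := congrArg Fin.val e; simp only at this; omega
        have hne3 : (⟨c.h.val + 1, h0⟩ : Fin S) ≠ ⟨c.h.val - 1, lt_of_le_of_lt (Nat.sub_le _ _) c.h.2⟩ := by
          intro e; have := congrArg Fin.val e; simp only at this; omega
        rw [key _ hne2, if_neg hne2, if_neg hne3]
      · rw [dif_neg h0, dif_neg h0]
  · -- right
    have hR : c.h.val + 1 < S := by
      by_contra h0
      have : isRgt c.h = true := by simp only [isRgt, decide_eq_true_eq]; omega
      rw [this] at h
      exact T.hr _ _ _ _ _ h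
    simp only [win, Conf.word, mvTo, Option.some.injEq, Prod.mk.injEq]
    have hne : (⟨c.h.val + 1, hR⟩ : Fin S) ≠ c.h := by
      intro e; have := congrArg Fin.val e; simp only at this; omega
    refine ⟨?_, ⟨?_, ?_⟩, ?_⟩
    · by_cases h0 : c.h.val = 0
      · simp [h0]
      · rw [if_neg h0, if_neg h0]
        have hne1 : (⟨c.h.val - 1, lt_of_le_of_lt (Nat.sub_le _ _) c.h.2⟩ : Fin S) ≠ c.h := by
          intro e; have := congrArg Fin.val e; simp only at this; omega
        have hne3 : (⟨c.h.val - 1, lt_of_le_of_lt (Nat.sub_le _ _) c.h.2⟩ : Fin S) ≠ ⟨c.h.val + 1, hR⟩ := by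
          intro e; have := congrArg Fin.val e; simp only at this; omega
        rw [key _ hne1, if_neg hne1, dif_pos hR, if_neg hne3]
    · simp
    · rw [dif_pos hR, if_neg (Ne.symm hne)]
    · rw [dif_pos hR, dif_pos hR, key _ hne, dif_pos hR]
      simp

theorem word_off (c : Conf Q Γ S) {i : Fin S} (h : i ≠ c.h) : c.word i = (c.t i, none) := by
  simp [Conf.word, h]

theorem loc_step (hd : d.2 = none) {c c' : Conf Q Γ S} (h : T.step c = some c') (i : Fin S) :
    T.Loc (isLft i) (isRgt i) (win d c.word i) (win d c'.word i) := by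
  refine ⟨nh_le hd c i, nh_le hd c' i, ?_, ?_⟩
  · intro h0
    rw [nh_word d hd] at h0
    split_ifs at h0 with h1
    simp only [win]
    unfold Aut.step at h
    split at h
    · simp at h
    · simp only [Option.some.injEq] at h
      subst h
      have hi : i ≠ c.h := by rintro rfl; exact h1 (Or.inr (Or.inl rfl))
      rw [word_off c hi, word_off _ (mvTo_val _ _ _ h1)]
      simp only [Function.update_of_ne hi]
  · intro h0
    have hi : i = c.h := by
      by_contra hne
      simp [win, Conf.word, hne] at h0
    subst hi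
    right
    unfold Aut.step at h
    split at h
    · simp at h
    · next q' b m h2 =>
      simp only [Option.some.injEq] at h
      subst h
      exact stepW_head h2

theorem loc_fwd (hd : d.2 = none) {c : Conf Q Γ S} {v : Fin S → Lt Q Γ}
    (hL : ∀ i, T.Loc (isLft i) (isRgt i) (win d c.word i) (win d v i)) :
    v = c.word ∨ ∃ c', T.step c = some c' ∧ v = c'.word := by
  have hfar : ∀ i : Fin S, ¬ (c.h.val + 1 = i.val ∨ c.h.val = i.val ∨ c.h.val = i.val + 1) →
      v i = c.word i := by
    intro i hi
    have h1 := (hL i).2.2.1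
    rw [nh_word d hd, if_neg hi] at h1
    exact (h1 rfl).symm
  have hnear : ∀ w : Fin S → Lt Q Γ, win d v c.h = win d w c.h →
      ∀ i : Fin S, (c.h.val + 1 = i.val ∨ c.h.val = i.val ∨ c.h.val = i.val + 1) → v i = w i := by
    intro w hw i hi
    simp only [win, Prod.mk.injEq] at hw
    obtain ⟨h1, h2, h3⟩ := hw
    rcases hi with hi | hi | hi
    · have : c.h.val + 1 < S := by rw [hi]; exact i.2
      rw [dif_pos this, dif_pos this] at h3
      have e : i = ⟨c.h.val + 1, this⟩ := Fin.ext hi.symm
      rw [e]; exact h3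
    · have e : i = c.h := Fin.ext hi.symm
      rw [e]; exact h2
    · rw [if_neg (by omega), if_neg (by omega)] at h1
      have e : i = ⟨c.h.val - 1, lt_of_le_of_lt (Nat.sub_le _ _) c.h.2⟩ := Fin.ext (by simp only; omega)
      rw [e]; exact h1
  have hhead := (hL c.h).2.2.2 (by simp [win, Conf.word])
  rcases hhead with h | h
  · left
    funext i
    by_cases hi : (c.h.val + 1 = i.val ∨ c.h.val = i.val ∨ c.h.val = i.val + 1)
    · exact hnear _ h i hi
    · exact hfar i hi
  · right
    rcases h4 : T.tr c.q (c.t c.h) (isLft c.h) (isRgt c.h) with _ | ⟨q', b, m⟩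
    · exfalso
      have h1 : (win d c.word c.h).2.1 = (c.t c.h, some c.q) := by simp [win, Conf.word]
      unfold Aut.stepW at h
      rw [h1] at h
      simp only [h4] at h
      simp at h
    · refine ⟨⟨q', mvTo c.h m, Function.update c.t c.h b⟩, by simp only [Aut.step, h4], ?_⟩
      rw [stepW_head h4] at h
      simp only [Option.some.injEq] at h
      funext i
      by_cases hi : (c.h.val + 1 = i.val ∨ c.h.val = i.val ∨ c.h.val = i.val + 1)
      · exact hnear _ h.symm i hi
      · rw [hfar i hi]
        have hi2 : i ≠ c.h := by rintro rfl; exact hi (Or.inr (Or.inl rfl))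
        rw [word_off c hi2, word_off _ (mvTo_val _ _ _ hi)]
        simp only [Function.update_of_ne hi2]

end Pool.Agent.Helper54.BR
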