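import Pool.Agent.Helper54.BR.Word2

namespace Pool.Agent.Helper54.BR

variable {Q Γ : Type} {S : ℕ} {T : Aut Q Γ} {d : Lt Q Γ}

theorem stepW_nh {l r : Bool} {u v : T3 Q Γ} (h : T.stepW l r u = some v) : 1 ≤ nh v := by
  unfold Aut.stepW at h
  split at h
  · simp at h
  · split at h
    · simp at h
    · simp only [Option.some.injEq] at h; subst h; simp [nh]; try omega
    · simp only [Option.some.injEq] at h; subst h; simp [nh]; try omega
    · simp only [Option.some.injEq] at h; subst h; simp [nh]; try omega

theorem nh_mid {u : T3 Q Γ} (h : u.2.1.2.isSome = true) : 1 ≤ nh u := by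
  simp [nh, h]; omega

theorem loc_bwd (hd : d.2 = none) {c : Conf Q Γ S} {u : Fin S → Lt Q Γ}
    (hL : ∀ i, T.Loc (isLft i) (isRgt i) (win d u i) (win d c.word i)) :
    ∃ c₀ : Conf Q Γ S, u = c₀.word ∧ (c = c₀ ∨ T.step c₀ = some c) := by
  have hex : ∃ a, (u a).2.isSome = true := by
    by_contra hcon
    push Not at hcon
    have h0 : ∀ a, (u a).2.isSome = false := fun a => by simpa using hcon a
    have h1 : u c.h = c.word c.h := by
      apply (hL c.h).2.2.1
      simp only [nh, win]
      split_ifs <;> simp [h0, hd]
    have h2 := h0 c.h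
    rw [h1] at h2
    simp [Conf.word] at h2
  have hnear : ∀ a, (u a).2.isSome = true →
      (c.h.val + 1 = a.val ∨ c.h.val = a.val ∨ c.h.val = a.val + 1) := by
    intro a ha
    by_contra hcon
    have h0 : nh (win d c.word a) = 0 := by rw [nh_word d hd, if_neg hcon]
    have hmid : (win d u a).2.1.2.isSome = true := ha
    rcases (hL a).2.2.2 hmid with h | h
    · rw [h] at h0
      have := nh_mid hmid
      omega
    · have := stepW_nh h
      omega
  have huniq : ∀ a b : Fin S, (u a).2.isSome = true → (u b).2.isSome = true → a.val < b.val → False := by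
    intro a b ha hb hab
    have h1 := hnear a ha
    have h2 := hnear b hb
    have hb2 := b.2
    by_cases h3 : b.val = a.val + 1
    · have h4 := (hL a).1
      have e : b = ⟨a.val + 1, by omega⟩ := Fin.ext h3
      rw [e] at hb
      simp only [nh, win] at h4
      rw [dif_pos (by omega), ha, hb] at h4
      simp only [Bool.toNat_true] at h4
      omega
    · have h3' : b.val = a.val + 2 := by omega
      have hm : a.val + 1 < S := by omega
      have h4 := (hL ⟨a.val + 1, hm⟩).1
      have e : b = ⟨a.val + 1 + 1, by omega⟩ := Fin.ext h3'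
      rw [e] at hb
      simp only [nh, win] at h4
      rw [dif_pos (by omega), if_neg (by omega), hb] at h4
      have e2 : (⟨a.val + 1 - 1, by omega⟩ : Fin S) = a := Fin.ext (by simp)
      rw [e2, ha] at h4
      simp only [Bool.toNat_true] at h4
      omega
  obtain ⟨a, ha⟩ := hex
  obtain ⟨q, hq⟩ := Option.isSome_iff_exists.1 ha
  have hu : u = Conf.word ⟨q, a, fun i => (u i).1⟩ := by
    funext i
    simp only [Conf.word]
    by_cases hi : i = a
    · subst hi
      rw [if_pos rfl, ← hq]
    · rw [if_neg hi]
      have h1 : (u i).2 = none := by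
        rcases h2 : (u i).2 with _ | x
        · rfl
        · exfalso
          have h3 : (u i).2.isSome = true := by rw [h2]; rfl
          rcases lt_trichotomy i.val a.val with h | h | h
          · exact huniq i a h3 ha h
          · exact hi (Fin.ext h)
          · exact huniq a i ha h3 h
      rw [← h1]
  refine ⟨_, hu, ?_⟩
  rw [hu] at hL
  rcases loc_fwd hd hL with h | ⟨c', h1, h2⟩
  · exact Or.inl (word_inj h)
  · right
    rw [word_inj h2]; exact h1

/-- the constraint problem of an automaton -/
def csp (T : Aut Q Γ) (d : Lt Q Γ) (S : ℕ) : CSP (Fin S) (Lt Q Γ) (Fin S × T3 Q Γ × T3 Q Γ) where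
  inc κ τ j b := (j.val + 1 = κ.1.val ∧ b = (if τ then κ.2.2 else κ.2.1).1) ∨
    (j.val = κ.1.val ∧ b = (if τ then κ.2.2 else κ.2.1).2.1) ∨
    (j.val = κ.1.val + 1 ∧ b = (if τ then κ.2.2 else κ.2.1).2.2)
  act κ := ¬ T.Loc (isLft κ.1) (isRgt κ.1) κ.2.1 κ.2.2 ∧
    (κ.1.val = 0 → κ.2.1.1 = d ∧ κ.2.2.1 = d) ∧
    (κ.1.val + 1 = S → κ.2.1.2.2 = d ∧ κ.2.2.2.2 = d)

theorem sat_csp {p : Bool → Fin S → Lt Q Γ} : (csp T d S).Sat p ↔
    ∀ i, T.Loc (isLft i) (isRgt i) (win d (p false) i) (win d (p true) i) := by
  constructor
  · intro h i
    by_contra hcon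
    have hact : (csp T d S).act (i, win d (p false) i, win d (p true) i) := by
      refine ⟨hcon, ?_, ?_⟩
      · intro h0
        simp only at h0
        simp [win, h0]
      · intro h0
        simp only at h0
        simp only [win]
        rw [dif_neg (by omega), dif_neg (by omega)]
        exact ⟨rfl, rfl⟩
    obtain ⟨τ, j, b, hinc, hne⟩ := h _ hact
    apply hne
    have e : (if τ then win d (p true) i else win d (p false) i) = win d (p τ) i := by
      cases τ <;> simp
    simp only [csp] at hinc
    rw [e] at hinc
    rcases hinc with ⟨h1, h2⟩ | ⟨h1, h2⟩ | ⟨h1, h2⟩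
    · rw [h2]
      simp only [win]
      rw [if_neg (by omega)]
      congr 1
      exact Fin.ext (by simp only; omega)
    · rw [h2]
      simp only [win]
      congr 1
      exact Fin.ext h1
    · rw [h2]
      have := j.2
      simp only [win]
      rw [dif_pos (by omega)]
      congr 1
      exact Fin.ext (by simp only; omega)
  · intro h κ hκ
    by_contra hcon
    push Not at hcon
    obtain ⟨i, u, v⟩ := κ
    obtain ⟨h1, h2, h3⟩ := hκ
    have hw : ∀ τ : Bool, (if τ then v else u) = win d (p τ) i := by
      intro τ
      have ha : ∀ h0 : i.val ≠ 0, p τ ⟨i.val - 1, lt_of_le_of_lt (Nat.sub_le _ _) i.2⟩ =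
          (if τ then v else u).1 := fun h0 =>
        hcon τ _ _ (Or.inl ⟨by simp only; omega, rfl⟩)
      have hb : p τ i = (if τ then v else u).2.1 := hcon τ _ _ (Or.inr (Or.inl ⟨rfl, rfl⟩))
      have hc : ∀ h0 : i.val + 1 < S, p τ ⟨i.val + 1, h0⟩ = (if τ then v else u).2.2 := fun h0 =>
        hcon τ _ _ (Or.inr (Or.inr ⟨rfl, rfl⟩))
      have h2' : i.val = 0 → (if τ then v else u).1 = d := by
        intro h0
        cases τ
        · exact (h2 h0).1
        · exact (h2 h0).2
      have h3' : i.val + 1 = S → (if τ then v else u).2.2 = d := by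
        intro h0
        cases τ
        · exact (h3 h0).1
        · exact (h3 h0).2
      simp only [win]
      ext1
      · by_cases h0 : i.val = 0
        · rw [if_pos h0]; exact h2' h0
        · rw [if_neg h0, ha h0]
      · ext1
        · exact hb.symm
        · by_cases h0 : i.val + 1 < S
          · rw [dif_pos h0]; exact (hc h0).symm
          · rw [dif_neg h0]; exact h3' (by have := i.2; omega)
    apply h1
    have e1 := hw false
    have e2 := hw true
    simp only [if_true, Bool.false_eq_true, if_false] at e1 e2
    simp only [e1, e2]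
    exact h i

theorem three_csp (hS : 2 ≤ S) : (csp T d S).Three := by
  rintro ⟨i, u, v⟩
  have hi := i.2
  by_cases h0 : i.val = 0
  · refine ⟨(false, i, u.2.1), (true, i, v.2.1), (false, ⟨i.val + 1, by omega⟩, u.2.2),
      by simp, ?_, by simp, ?_⟩
    · intro h
      have := congrArg (fun z => z.2.1.val) h
      simp only at this
      omega
    · rintro z (rfl | rfl | rfl)
      · exact Or.inr (Or.inl ⟨rfl, rfl⟩)
      · exact Or.inr (Or.inl ⟨rfl, rfl⟩)
      · exact Or.inr (Or.inr ⟨rfl, rfl⟩)
  · refine ⟨(false, i, u.2.1), (true, i, v.2.1), (false, ⟨i.val - 1, by omega⟩, u.1),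
      by simp, ?_, by simp, ?_⟩
    · intro h
      have := congrArg (fun z => z.2.1.val) h
      simp only at this
      omega
    · rintro z (rfl | rfl | rfl)
      · exact Or.inr (Or.inl ⟨rfl, rfl⟩)
      · exact Or.inr (Or.inl ⟨rfl, rfl⟩)
      · exact Or.inl ⟨by simp only; omega, rfl⟩

/-- the pair of words of two configurations -/
def pp (a b : Conf Q Γ S) : Bool → Fin S → Lt Q Γ := fun τ => if τ then b.word else a.word

theorem alt_iff (hd : d.2 = none) {c₀ cf : Conf Q Γ S} (hf : T.step cf = none) :
    Relation.ReflTransGen (csp T d S).Alt (pp c₀ c₀) (pp cf cf) ↔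
      Relation.ReflTransGen (fun a b => T.step a = some b) c₀ cf := by
  constructor
  · intro h
    have key : ∀ p, Relation.ReflTransGen (csp T d S).Alt (pp c₀ c₀) p →
        ∃ a b : Conf Q Γ S, p = pp a b ∧ (b = a ∨ T.step a = some b) ∧
          Relation.EqvGen (fun a b => T.step a = some b) c₀ a := by
      intro p hp
      induction hp with
      | refl => exact ⟨c₀, c₀, rfl, Or.inl rfl, .refl _⟩
      | @tail p p' _ hpp ih =>
        obtain ⟨a, b, rfl, hab, hr⟩ := ih
        obtain ⟨_, hs, τ, hτ⟩ := hpp
        rw [sat_csp] at hs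
        cases τ
        · have h1 : p' false = a.word := hτ
          rw [h1] at hs
          rcases loc_fwd hd hs with h2 | ⟨c', h2, h3⟩
          · refine ⟨a, a, ?_, Or.inl rfl, hr⟩
            funext τ
            cases τ
            · exact h1
            · exact h2
          · refine ⟨a, c', ?_, Or.inr h2, hr⟩
            funext τ
            cases τ
            · exact h1
            · exact h3
        · have h1 : p' true = b.word := hτ
          rw [h1] at hs
          obtain ⟨a', h2, h3⟩ := loc_bwd hd hs
          refine ⟨a', b, ?_, h3, ?_⟩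
          · funext τ
            cases τ
            · exact h2
            · exact h1
          · have h4 : Relation.EqvGen (fun a b => T.step a = some b) a b := by
              rcases hab with rfl | h
              · exact .refl _
              · exact .rel _ _ h
            have h5 : Relation.EqvGen (fun a b => T.step a = some b) b a' := by
              rcases h3 with rfl | h
              · exact .refl _
              · exact .symm _ _ (.rel _ _ h)
            exact .trans _ _ _ hr (.trans _ _ _ h4 h5)
    obtain ⟨a, b, h1, -, h2⟩ := key _ h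
    have ha : a = cf := (word_inj (congrFun h1 false)).symm
    subst ha
    have hjoin : ∀ x y, Relation.EqvGen (fun a b : Conf Q Γ S => T.step a = some b) x y →
        Relation.Join (Relation.ReflTransGen (fun a b : Conf Q Γ S => T.step a = some b)) x y := by
      have hE := Relation.equivalence_join_reflTransGen
        (r := fun a b : Conf Q Γ S => T.step a = some b) (by
          intro a b c hab hac
          rw [hab] at hac
          simp only [Option.some.injEq] at hac
          subst hac
          exact ⟨b, .refl, .refl⟩)
      intro x y hxy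
      induction hxy with
      | rel x y h => exact ⟨y, .single h, .refl⟩
      | refl x => exact hE.refl x
      | symm x y _ ih => exact hE.symm ih
      | trans x y z _ _ ih1 ih2 => exact hE.trans ih1 ih2
    obtain ⟨z, hz1, hz2⟩ := hjoin _ _ h2
    rcases Relation.ReflTransGen.cases_head hz2 with h3 | ⟨c, h3, _⟩
    · rw [h3]; exact hz1
    · rw [hf] at h3; simp at h3
  · intro h
    clear hf
    induction h with
    | refl => exact .refl
    | @tail b c _ hbc ih =>
      have s1 : (csp T d S).Sat (pp b b) := sat_csp.2 fun i => loc_self hd b i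
      have s2 : (csp T d S).Sat (pp b c) := sat_csp.2 fun i => loc_step hd hbc i
      have s3 : (csp T d S).Sat (pp c c) := sat_csp.2 fun i => loc_self hd c i
      exact (ih.tail ⟨s1, s2, false, rfl⟩).tail ⟨s2, s3, true, rfl⟩

end Pool.Agent.Helper54.BR
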